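import Pool.Agent.T9h43.TV.Rel

set_option autoImplicit false

/-! Places of finite extensions: the version with a clause about `-1`. -/

namespace Pool.Agent.T9h43.TV.Rel

open Polynomial Topology Filter FirstOrder Pool.Agent.W882.Nip3 Pool.Agent.N616.NH
  Pool.Agent.N616.NV Pool.Agent.N616.NH.DJ_ Pool.Agent.N616.NV.PB_ Pool.Agent.T9h43.MC
  Pool.Agent.N616.NH.DFB_ Pool.Agent.N616.NH.DFA_

variable {K₀ : Type} [Field K₀] [FirstOrder.Ring.CompatibleRing K₀] {K : Type} [Field K]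
  [Algebra K₀ K] [FiniteDimensional K₀ K]

theorem ext_E_rel2 (P : Place K) (U : Set K) (hU : D K₀ (fun v : Fin 1 → K => v 0 ∈ U)) (ε : ℝ) (hε : 0 < ε)
    (hU1 : ∀ (x : K) (h : x ∈ P.O), ‖P.res ⟨x, h⟩‖ ≤ ε → x ∈ U)
    (hU2 : ∀ x ∈ U, ∃ h : x ∈ P.O, ‖P.res ⟨x, h⟩‖ ≤ 1 / ε) {q : ℕ} (hq : q ≠ 0)
    (hqn : ‖(q : P.F)‖ = 1)
    (E : Type) [NontriviallyNormedField E] [IsUltrametricDist E] [NormedAlgebra P.F E]
    [FiniteDimensional P.F E] [Algebra.IsSeparable P.F E] [CompleteSpace E]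
    (c0 : E) (hc0 : ∀ y : E, y ^ q ≠ c0) :
    ∃ (L : Type) (_ : Field L) (_ : Algebra K₀ L) (_ : FiniteDimensional K₀ L) (_ : Algebra K L)
      (_ : IsScalarTower K₀ K L) (T : Set L)
      (A : ValuationSubring L) (c : L), D K₀ (fun v : Fin 1 → L => v 0 ∈ T) ∧ (0 : L) ∉ T ∧
      (∀ x ∈ T, ∀ y ∈ T, x * y ∈ T) ∧ (∀ x ∈ T, x⁻¹ ∈ T) ∧ (∀ x : L, x ≠ 0 → x ^ q ∈ T) ∧
      c ≠ 0 ∧ c ∉ T ∧ A ≠ ⊤ ∧ (∀ x : L, A.valuation x < 1 → 1 + x ∈ T) ∧
      ((∃ i : E, i ^ q = -1) → (-1 : L) ∈ T) ∧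
      ∀ x : K, algebraMap K L x ∈ A ↔ ∃ h : x ∈ P.O, ‖P.res ⟨x, h⟩‖ ≤ 1 := by
  classical
  have hψ := P.isUnit_of_res_ne_zero
  obtain ⟨e, hrank⟩ : ∃ e, Module.finrank P.F E = e + 1 :=
    ⟨Module.finrank P.F E - 1, by have := Module.finrank_pos (R := P.F) (M := E); omega⟩
  have hdense1 : ∀ n : ℕ, DenseRange (fun (g : Fin n → P.O) (k : Fin n) => P.res (g k)) := fun n =>
    DenseRange.piMap (fun _ : Fin n => P.denseRange)
  obtain ⟨c₀, hc₀⟩ := P1_normed (F := P.F) E (e+1) hrank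
  obtain ⟨gS, T, hT0', hTli⟩ := pick (hdense1 (e+1)) hc₀
  set gK : Fin (e+1) → K := fun k => (gS k : K) with hgK
  have hg : ∀ k, gK k ∈ P.O := fun k => (gS k).2
  have hT0 : ev (e+1) T (fun k => P.res (gO P.O gK hg k)) = 0 := hT0'
  have hirr : Fact (Irreducible (mpoly (e+1) gK)) := ⟨irred P.O P.res gK hg hrank T hT0 hTli⟩
  let L : Type := Alg (e+1) gK
  let _ : Field L := AdjoinRoot.instField
  have hfinL : FiniteDimensional K L := Module.Finite.of_basis (algBasis (e+1) gK)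
  have htow : IsScalarTower K₀ K L := inferInstanceAs (IsScalarTower K₀ K (Alg (e+1) gK))
  have hfinL0 : FiniteDimensional K₀ L := Module.Finite.trans K L
  have hfield : IsField (Alg (e+1) gK) := Field.toIsField L
  set τ := tau P.O gK hg with hτ
  set φ := phi P.O P.res gK hg T hT0 with hφ
  -- coordinates
  have hcard : Fintype.card (Fin (e+1)) = Module.finrank P.F E := by rw [hrank, Fintype.card_fin]
  let b' : Module.Basis (Fin (e+1)) P.F E := basisOfLinearIndependentOfCardEqFinrank hTli hcard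
  have hb' : ∀ k, b' k = T ^ (k : ℕ) := fun k => by
    simp only [b', coe_basisOfLinearIndependentOfCardEqFinrank]
  have hcoord : Continuous (fun x : E => (b'.equivFun x : Fin (e+1) → P.F)) :=
    LinearMap.continuous_of_finiteDimensional (b'.equivFun : E →ₗ[P.F] (Fin (e+1) → P.F))
  have hcoordφ : ∀ w : Fin (e+1) → P.O, b'.equivFun (φ (elt (gO P.O gK hg) w)) =
      fun k => P.res (w k) := by
    intro w
    rw [hφ, phi_elt]
    have : ∑ k, P.res (w k) • T ^ (k : ℕ) = ∑ k, P.res (w k) • b' k :=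
      Finset.sum_congr rfl fun k _ => by rw [hb']
    rw [this]
    funext k
    exact congrFun (b'.equivFun_symm_apply (fun k => P.res (w k)) ▸
      b'.equivFun.apply_symm_apply (fun k => P.res (w k))) k
  -- density
  have hφd : DenseRange φ := by
    have hΦc : Continuous (fun c : Fin (e+1) → P.F => b'.equivFun.symm c) :=
      LinearMap.continuous_of_finiteDimensional (b'.equivFun.symm : (Fin (e+1) → P.F) →ₗ[P.F] E)
    have h1 : DenseRange (fun w : Fin (e+1) → P.O => b'.equivFun.symm (fun k => P.res (w k))) :=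
      (b'.equivFun.symm.surjective.denseRange).comp (hdense1 (e+1)) hΦc
    have h2 : (fun w : Fin (e+1) → P.O => b'.equivFun.symm (fun k => P.res (w k))) =
        φ ∘ (fun w => elt (gO P.O gK hg) w) := by
      funext w
      show _ = φ (elt (gO P.O gK hg) w)
      rw [← hcoordφ w, LinearEquiv.symm_apply_apply]
    rw [h2] at h1
    exact h1.mono (Set.range_comp_subset_range _ _)
  -- the scale
  obtain ⟨C, hC1, hC⟩ : ∃ C : ℝ, 1 ≤ C ∧ ∀ k : Fin (e+1), ‖T ^ (k : ℕ)‖ ≤ C := by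
    refine ⟨1 + ∑ k : Fin (e+1), ‖T ^ (k : ℕ)‖, ?_, fun k => ?_⟩
    · have : 0 ≤ ∑ k : Fin (e+1), ‖T ^ (k : ℕ)‖ := Finset.sum_nonneg fun _ _ => norm_nonneg _
      linarith
    · have := Finset.single_le_sum (f := fun k : Fin (e+1) => ‖T ^ (k : ℕ)‖)
        (fun _ _ => norm_nonneg _) (Finset.mem_univ k)
      linarith
  have hCpos : 0 < C := by linarith
  obtain ⟨a1, ha10, ha1⟩ := NormedField.exists_norm_lt P.F (r := ε / (2 * C)) (by positivity)
  obtain ⟨ϖ, hϖ0, hϖ⟩ := pick P.denseRange (y := a1) (Q := fun y => 0 < ‖y‖ ∧ ‖y‖ < ε / (2 * C)) (by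
    have h1 : Continuous fun y : P.F => ‖y‖ := continuous_norm
    exact (continuousAt_const.eventually_lt h1.continuousAt ha10).and
      (h1.continuousAt.eventually_lt continuousAt_const ha1))
  have hϖne : P.res ϖ ≠ 0 := norm_pos_iff.1 hϖ0
  obtain ⟨ϖ', hϖ'⟩ := (hψ ϖ hϖne).exists_left_inv
  -- small elements have small coordinates
  obtain ⟨δ, hδ0, hδ⟩ : ∃ δ > 0, ∀ x : E, ‖x‖ < δ → ∀ k, ‖b'.equivFun x k‖ < ε * ‖P.res ϖ‖ := by
    have h1 := (hcoord.tendsto (0 : E))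
    rw [map_zero] at h1
    have h2 : ∀ᶠ x in 𝓝 (0 : E), ‖b'.equivFun x‖ < ε * ‖P.res ϖ‖ := by
      have h3 := h1.norm.eventually_lt (tendsto_const_nhds (x := ε * ‖P.res ϖ‖)) (by
        rw [norm_zero]
        positivity)
      exact h3
    obtain ⟨δ, hδ0, hδ⟩ := Metric.eventually_nhds_iff.1 h2
    refine ⟨δ, hδ0, fun x hx k => lt_of_le_of_lt (norm_le_pi_norm _ k) (hδ ?_)⟩
    rw [dist_zero_right]
    exact hx
  -- the neighbourhood
  let ϖL : L := algebraMap K L (ϖ : K)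
  let bL : Fin (e+1) → L := fun k => algBasis (e+1) gK k
  let W : L → Prop := fun z => ∃ w : Fin (e+1) → L,
    (∀ k, ∃ x ∈ U, algebraMap K L x = w k) ∧ z = ∑ k, ϖL * w k * bL k
  have hW1 : ∀ z : Alg (e+1) (gO P.O gK hg), ‖φ z‖ < δ → W (τ z) := by
    intro z hz
    obtain ⟨w, rfl⟩ := exists_elt (gO P.O gK hg) z
    have h1 := hδ _ hz
    rw [hcoordφ] at h1
    refine ⟨fun k => algebraMap K L ((ϖ' : K) * (w k : K)), fun k => ⟨(ϖ' : K) * (w k : K), ?_, rfl⟩, ?_⟩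
    · refine hU1 _ (P.O.mul_mem _ _ ϖ'.2 (w k).2) ?_
      have h2 : (⟨(ϖ' : K) * (w k : K), P.O.mul_mem _ _ ϖ'.2 (w k).2⟩ : P.O) = ϖ' * w k := rfl
      rw [h2, map_mul, norm_mul]
      have h3 : ‖P.res ϖ'‖ * ‖P.res ϖ‖ = 1 := by
        rw [← norm_mul, ← map_mul, hϖ', map_one, norm_one]
      have h4 := (h1 k).le
      calc ‖P.res ϖ'‖ * ‖P.res (w k)‖ ≤ ‖P.res ϖ'‖ * (ε * ‖P.res ϖ‖) :=
            mul_le_mul_of_nonneg_left h4 (norm_nonneg _)
        _ = ε * (‖P.res ϖ'‖ * ‖P.res ϖ‖) := by ring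
        _ = ε := by rw [h3, mul_one]
    · rw [hτ, tau_elt, elt]
      refine Finset.sum_congr rfl fun k _ => ?_
      have h2 : (ϖ : K) * ((ϖ' : K) * (w k : K)) = w k := by
        have h3 : (ϖ' : K) * (ϖ : K) = 1 := congrArg Subtype.val hϖ'
        rw [← mul_assoc, mul_comm (ϖ : K), h3, one_mul]
      show ((w k : P.O) : K) • algBasis (e+1) gK k =
        algebraMap K L (ϖ : K) * algebraMap K L ((ϖ' : K) * (w k : K)) * algBasis (e+1) gK k
      rw [← map_mul, h2, Algebra.smul_def]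
  have hW2 : ∀ z : L, W z → ∃ z' : Alg (e+1) (gO P.O gK hg), τ z' = z ∧ ‖φ z'‖ < 1 := by
    rintro z ⟨w, hw, rfl⟩
    choose x hxU hx using hw
    choose hxO hxn using fun k => hU2 (x k) (hxU k)
    refine ⟨elt (gO P.O gK hg) (fun k => ϖ * ⟨x k, hxO k⟩), ?_, ?_⟩
    · rw [hτ, tau_elt, elt]
      refine Finset.sum_congr rfl fun k _ => ?_
      show (((ϖ * ⟨x k, hxO k⟩ : P.O)) : K) • algBasis (e+1) gK k =
        algebraMap K L (ϖ : K) * w k * algBasis (e+1) gK k
      rw [← hx k, ← map_mul, Algebra.smul_def]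
      rfl
    · rw [hφ, phi_elt]
      refine lt_of_le_of_lt (norm_sum_le' (E := E) _ _ (1 / 2) (by norm_num) fun k _ => ?_) (by norm_num)
      rw [norm_smul, map_mul, norm_mul]
      calc ‖P.res ϖ‖ * ‖P.res ⟨x k, hxO k⟩‖ * ‖T ^ (k : ℕ)‖
          ≤ (ε / (2 * C)) * (1 / ε) * C := by
            refine mul_le_mul (mul_le_mul hϖ.le (hxn k) (norm_nonneg _) (by positivity)) (hC k)
              (norm_nonneg _) (by positivity)
        _ = 1 / 2 := by field_simp
  have hqE : ‖(q : E)‖ = 1 := by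
    rw [← map_natCast (algebraMap P.F E), norm_algebraMap', hqn]
  -- units
  have hunit : ∀ z : Alg (e+1) (gO P.O gK hg), φ z ≠ 0 → ∃ z', z * z' = 1 := fun z hz =>
    unit_of_phi_ne P.O P.res gK hg hψ hfield T hT0 hTli z hz
  -- the subgroup
  let TT : Set L := {z | ∃ (y : L) (w : Fin (e+1) → L),
      (∀ k, ∃ x ∈ U, algebraMap K L x = w k) ∧ z * y ^ q - 1 = ∑ k, ϖL * w k * bL k}
  have hTT : ∀ z : L, z ∈ TT ↔ ∃ (y : L) (u : Alg (e+1) (gO P.O gK hg)) (d : E), z * y ^ q = τ u ∧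
      φ u = d ^ q ∧ d ≠ 0 := by
    intro z
    constructor
    · rintro ⟨y, w, hw, hyw⟩
      obtain ⟨w', hw'1, hw'2⟩ := hW2 _ ⟨w, hw, hyw⟩
      obtain ⟨d, hd, hd1⟩ := root_near_one hqE (φ w') hw'2
      refine ⟨y, 1 + w', d, ?_, ?_, ?_⟩
      · rw [map_add, map_one, hw'1]
        ring
      · rw [map_add, map_one, hd]
      · rintro rfl
        rw [zero_sub, norm_neg, norm_one] at hd1
        exact lt_irrefl _ hd1
    · rintro ⟨y, u, d, hyu, hud, hd⟩
      obtain ⟨v, hv0, hv⟩ := pick hφd (y := d) (Q := fun v => v ≠ 0 ∧ ‖d ^ q / v ^ q - 1‖ < δ) (by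
        have h1 : ContinuousAt (fun v : E => ‖d ^ q / v ^ q - 1‖) d := by
          have h2 : ContinuousAt (fun v : E => v ^ q) d := (continuous_pow q).continuousAt
          exact ((continuousAt_const.div h2 (pow_ne_zero _ hd)).sub continuousAt_const).norm
        refine (continuousAt_id.eventually_ne hd).and (h1.eventually_lt continuousAt_const ?_)
        show ‖d ^ q / d ^ q - 1‖ < δ
        rw [div_self (pow_ne_zero _ hd), sub_self, norm_zero]
        exact hδ0)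
      obtain ⟨v', hv'⟩ := hunit v hv0
      have hphiv : φ v * φ v' = 1 := by rw [← map_mul, hv', map_one]
      have h1 : ‖φ (u * v' ^ q - 1)‖ < δ := by
        rw [map_sub, map_mul, map_pow, map_one, hud]
        have h2 : d ^ q * φ v' ^ q - 1 = d ^ q / φ v ^ q - 1 := by
          have h3 : φ v' = (φ v)⁻¹ := (eq_inv_of_mul_eq_one_right hphiv)
          rw [h3, inv_pow, div_eq_mul_inv]
        rw [h2]
        exact hv
      obtain ⟨w, hw1, hw2⟩ := hW1 _ h1
      refine ⟨y * τ v', w, hw1, ?_⟩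
      rw [← hw2, map_sub, map_mul τ u, map_pow τ v', map_one, mul_pow, ← mul_assoc, hyu]
  -- a field element which is not in the subgroup
  have hc00 : c0 ≠ 0 := by
    rintro rfl
    exact hc0 0 (zero_pow hq)
  obtain ⟨v, hv⟩ := pick hφd (y := c0) (Q := fun v => ‖v - c0‖ < ‖c0‖) (by
    have h1 : Continuous fun v : E => ‖v - c0‖ := by fun_prop
    exact h1.continuousAt.eventually_lt continuousAt_const (by simpa using hc00))
  have hv0 : φ v ≠ 0 := by
    intro h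
    rw [h, zero_sub, norm_neg] at hv
    exact lt_irrefl _ hv
  obtain ⟨v', hv'⟩ := hunit v hv0
  have hτv : τ v ≠ 0 := by
    intro h
    apply hv0
    have h1 : v = 0 := tau_injective P.O gK hg (by rw [← hτ, h, map_zero])
    rw [h1, map_zero]
  have hvTT : τ v ∉ TT := by
    rw [hTT]
    rintro ⟨y, u, d, hyu, hud, hd⟩
    have h1 : y ^ q = τ (u * v') := by
      have h2 : τ v * τ v' = 1 := by rw [← map_mul, hv', map_one]
      rw [map_mul, ← hyu]
      calc y ^ q = (τ v * τ v') * y ^ q := by rw [h2, one_mul]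
        _ = _ := by ring
    obtain ⟨y', hy'⟩ := mem_tau_of_pow P.O P.res gK hg T hT0 hTli hψ hq y _ h1
    have h2 : v * y' ^ q = u := by
      apply tau_injective P.O gK hg
      rw [map_mul, map_pow, hy']
      exact hyu
    have h3 : φ v * φ y' ^ q = d ^ q := by rw [← hud, ← h2, map_mul, map_pow]
    have h4 : φ y' ≠ 0 := by
      intro h0
      rw [h0, zero_pow hq, mul_zero] at h3
      exact hd ((pow_eq_zero_iff hq).1 h3.symm)
    obtain ⟨r, hr, -⟩ := root_near_one hqE (c0 / φ v - 1) (by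
      have h5 : c0 / φ v - 1 = (c0 - φ v) / φ v := by field_simp
      rw [h5, norm_div, div_lt_one (norm_pos_iff.2 hv0)]
      have h6 : ‖φ v‖ = ‖c0‖ := norm_eq_of_sub_lt (by rwa [norm_sub_rev])
      rw [h6, norm_sub_rev]
      exact hv)
    apply hc0 (r * d / φ y')
    rw [div_pow, mul_pow, hr, ← h3]
    field_simp
    ring
  -- the valuation ring
  let A : ValuationSubring L := vA P.O P.res gK hg hirr hψ T hT0 hTli
  have hAmem : ∀ z : L, z ∈ A ↔ ∃ z', τ z' = z ∧ ‖φ z'‖ ≤ 1 := fun z => Iff.rfl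
  have hAK : ∀ x : K, algebraMap K L x ∈ A ↔ ∃ h : x ∈ P.O, ‖P.res ⟨x, h⟩‖ ≤ 1 := by
    intro x
    rw [hAmem]
    constructor
    · rintro ⟨z', hz', hz'1⟩
      obtain ⟨α, hα, hzα⟩ := mem_of_tau_eq P.O gK hg z' x hz'
      subst hα
      refine ⟨α.2, ?_⟩
      have h1 : φ z' = algebraMap P.F E (P.res α) := by
        rw [hzα]
        exact phi_algebraMap P.O P.res gK hg T hT0 α
      rw [h1, norm_algebraMap'] at hz'1
      exact hz'1
    · rintro ⟨h, h1⟩
      refine ⟨algebraMap P.O _ ⟨x, h⟩, tau_algebraMap P.O gK hg ⟨x, h⟩, ?_⟩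
      have h2 : φ (algebraMap P.O _ ⟨x, h⟩) = algebraMap P.F E (P.res ⟨x, h⟩) :=
        phi_algebraMap P.O P.res gK hg T hT0 ⟨x, h⟩
      rw [h2, norm_algebraMap']
      exact h1
  refine ⟨L, inferInstance, inferInstance, hfinL0, inferInstance, htow, TT, A, τ v, D_T_rel (K₀ := K₀) (K := K) (L := L) hU ϖL bL q,
    ?_, ?_, ?_, ?_, hτv, hvTT, ?_, ?_, ?_, hAK⟩
  · rw [hTT]
    rintro ⟨y, u, d, hyu, hud, hd⟩
    rw [zero_mul] at hyu
    have h1 : u = 0 := tau_injective P.O gK hg (by rw [← hτ, ← hyu, map_zero])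
    rw [h1, map_zero] at hud
    exact hd ((pow_eq_zero_iff hq).1 hud.symm)
  · intro x hx y hy
    rw [hTT] at hx hy ⊢
    obtain ⟨y1, u1, d1, h1, h2, h3⟩ := hx
    obtain ⟨y2, u2, d2, h4, h5, h6⟩ := hy
    refine ⟨y1 * y2, u1 * u2, d1 * d2, ?_, ?_, mul_ne_zero h3 h6⟩
    · rw [map_mul, ← h1, ← h4]
      ring
    · rw [map_mul, h2, h5, mul_pow]
  · intro x hx
    rw [hTT] at hx ⊢
    obtain ⟨y, u, d, h1, h2, h3⟩ := hx
    have hu0 : φ u ≠ 0 := by
      rw [h2]
      exact pow_ne_zero _ h3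
    obtain ⟨u', hu'⟩ := hunit u hu0
    refine ⟨y⁻¹, u', d⁻¹, ?_, ?_, inv_ne_zero h3⟩
    · have h4 : τ u * τ u' = 1 := by rw [← map_mul, hu', map_one]
      rw [eq_inv_of_mul_eq_one_right h4, ← h1, mul_inv, inv_pow]
    · have h4 : φ u * φ u' = 1 := by rw [← map_mul, hu', map_one]
      rw [eq_inv_of_mul_eq_one_right h4, h2, inv_pow]
  · intro x hx
    rw [hTT]
    refine ⟨x⁻¹, 1, 1, ?_, ?_, one_ne_zero⟩
    · rw [map_one, ← mul_pow, mul_inv_cancel₀ hx, one_pow]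
    · rw [map_one, one_pow]
  · intro htop
    obtain ⟨t, ht⟩ := NormedField.exists_one_lt_norm P.F
    obtain ⟨s, hs⟩ := pick P.denseRange (y := t) (Q := fun y => 1 < ‖y‖)
      (continuousAt_const.eventually_lt continuous_norm.continuousAt ht)
    have h1 : algebraMap K L (s : K) ∈ A := by
      rw [htop]
      trivial
    obtain ⟨h2, h3⟩ := (hAK _).1 h1
    exact absurd h3 (not_le.2 hs)
  · intro x hx
    have hxA : x ∈ A := (A.valuation_le_one_iff x).1 hx.le
    obtain ⟨x', hx', hx'1⟩ := (hAmem x).1 hxA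
    have hx'2 : ‖φ x'‖ < 1 := by
      refine lt_of_le_of_ne hx'1 fun h => ?_
      have h0 : φ x' ≠ 0 := by
        intro h0
        rw [h0, norm_zero] at h
        exact zero_ne_one h
      obtain ⟨u, hu⟩ := hunit x' h0
      have h1 : ‖φ x'‖ * ‖φ u‖ = 1 := by rw [← norm_mul, ← map_mul, hu, map_one, norm_one]
      rw [h, one_mul] at h1
      have h2 : τ u ∈ A := (hAmem _).2 ⟨u, rfl, h1.le⟩
      have h3 : x * τ u = 1 := by rw [← hx', ← map_mul, hu, map_one]
      have h4 : A.valuation x * A.valuation (τ u) = 1 := by rw [← map_mul, h3, map_one]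
      have h5 : A.valuation (τ u) ≤ 1 := (A.valuation_le_one_iff _).2 h2
      have h6 : A.valuation x * A.valuation (τ u) < 1 :=
        mul_lt_one_of_lt_of_le hx h5
      rw [h4] at h6
      exact lt_irrefl _ h6
    rw [hTT]
    obtain ⟨d, hd, hd1⟩ := root_near_one hqE (φ x') hx'2
    refine ⟨1, 1 + x', d, ?_, ?_, ?_⟩
    · rw [map_add, map_one, hx', one_pow, mul_one]
    · rw [map_add, map_one, hd]
    · rintro rfl
      rw [zero_sub, norm_neg, norm_one] at hd1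
      exact lt_irrefl _ hd1
  · rintro ⟨i, hi⟩
    rw [hTT]
    refine ⟨1, -1, i, ?_, ?_, ?_⟩
    · rw [map_neg, map_one, one_pow, mul_one]
    · rw [map_neg, map_one, hi]
    · rintro rfl
      rw [zero_pow hq] at hi
      exact one_ne_zero (neg_eq_zero.1 hi.symm)

end Pool.Agent.T9h43.TV.Rel
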