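import Pool.Agent.T9h43.TV.Nip

set_option autoImplicit false

/-!
Complete fields with divisible value group: finite extensions of degree prime to the residue
characteristic enlarge the residue field.
-/

open Polynomial IntermediateField

namespace Pool.Agent.T9h43.TV

section

variable {F : Type} [NontriviallyNormedField F] [CompleteSpace F] [IsUltrametricDist F]

/-- the absolute value of an element of a finite extension lies in a divisible value group -/
theorem exists_norm_eq (hdiv : ∀ m : ℕ, m ≠ 0 → ∀ a : F, ∃ b : F, ‖b‖ ^ m = ‖a‖)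
    (E : Type) [Field E] [Algebra F E] [FiniteDimensional F E] (y : E) :
    ∃ c : F, ‖c‖ = spectralNorm F E y := by
  have hd : (minpoly F y).natDegree ≠ 0 :=
    (minpoly.natDegree_pos (Algebra.IsIntegral.isIntegral y)).ne'
  obtain ⟨c, hc⟩ := hdiv _ hd ((minpoly F y).coeff 0)
  refine ⟨c, ?_⟩
  rw [spectralNorm.spectralNorm_eq_norm_coeff_zero_rpow, ← hc, one_div, Real.pow_rpow_inv_natCast
    (norm_nonneg _) hd]

omit [CompleteSpace F] in
/-- sums of multisets -/
theorem spectral_sum_le {Ω : Type} [Field Ω] [Algebra F Ω] [Algebra.IsAlgebraic F Ω] (r : ℝ)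
    (hr : 0 ≤ r) (s : Multiset Ω) (h : ∀ x ∈ s, spectralNorm F Ω x ≤ r) :
    spectralNorm F Ω s.sum ≤ r := by
  induction s using Multiset.induction_on with
  | empty =>
    rw [Multiset.sum_zero, spectralNorm_zero]
    exact hr
  | cons a s ih =>
    rw [Multiset.sum_cons]
    refine (isNonarchimedean_spectralNorm a s.sum).trans (max_le (h a (Multiset.mem_cons_self a s)) ?_)
    exact ih fun x hx => h x (Multiset.mem_cons_of_mem hx)

omit [CompleteSpace F] in
theorem spectral_nsmul_le {Ω : Type} [Field Ω] [Algebra F Ω] [Algebra.IsAlgebraic F Ω] (n : ℕ)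
    (x : Ω) : spectralNorm F Ω (n • x) ≤ spectralNorm F Ω x := by
  have h1 : n • x = (n : F) • x := by rw [Nat.cast_smul_eq_nsmul]
  rw [h1, spectralNorm_smul _ (Algebra.IsAlgebraic.isAlgebraic x)]
  have h2 : (‖(n : F)‖₊ : ℝ) ≤ 1 := norm_nat_le n
  calc (‖(n : F)‖₊ : ℝ) * spectralNorm F Ω x ≤ 1 * spectralNorm F Ω x :=
        mul_le_mul_of_nonneg_right h2 (spectralNorm_nonneg x)
    _ = spectralNorm F Ω x := one_mul _

/-- traces to intermediate fields are small -/
theorem spectral_trace_le (E : Type) [Field E] [Algebra F E] [FiniteDimensional F E]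
    (M : IntermediateField F E) (y : E) :
    spectralNorm F E ((Algebra.trace M E y : M) : E) ≤ spectralNorm F E y := by
  obtain ⟨Ω, hΩ, hΩa, hcl⟩ : ∃ (Ω : Type) (_ : Field Ω) (_ : Algebra E Ω), IsAlgClosure E Ω :=
    ⟨AlgebraicClosure E, inferInstance, inferInstance, inferInstance⟩
  let _ : Algebra F Ω := ((algebraMap E Ω).comp (algebraMap F E)).toAlgebra
  have t1 : IsScalarTower F E Ω := IsScalarTower.of_algebraMap_eq fun x => rfl
  have t2 : IsScalarTower M E Ω := IsScalarTower.of_algebraMap_eq fun x => rfl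
  have t3 : IsScalarTower F M Ω := IsScalarTower.of_algebraMap_eq fun x => rfl
  have : IsAlgClosed Ω := hcl.isAlgClosed
  have : Algebra.IsAlgebraic E Ω := hcl.isAlgebraic
  have : Algebra.IsAlgebraic F Ω := Algebra.IsAlgebraic.trans F E Ω
  have h1 := trace_eq_sum_roots (K := M) (L := E) (F := Ω) (x := y)
    (IsAlgClosed.splits _)
  have h2 : spectralNorm F E ((Algebra.trace M E y : M) : E) =
      spectralNorm F Ω (algebraMap M Ω (Algebra.trace M E y)) := by
    have h3 : algebraMap M Ω (Algebra.trace M E y) =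
      algebraMap E Ω ((Algebra.trace M E y : M) : E) := rfl
    rw [h3]
    exact spectralNorm.eq_of_tower (K := F) (L := Ω) (E := E) _
  rw [h2, h1]
  refine (spectral_nsmul_le _ _).trans ?_
  refine spectral_sum_le _ (spectralNorm_nonneg y) _ fun r hr => ?_
  rw [spectralNorm.eq_of_tower (K := F) (L := Ω) (E := E) y]
  apply le_of_eq
  unfold spectralNorm
  have h3 : aeval r (minpoly F y) = 0 := by
    have h4 : minpoly M y ∣ (minpoly F y).map (algebraMap F M) := minpoly.dvd_map_of_isScalarTower F M y
    obtain ⟨q, hq⟩ := h4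
    have h5 : aeval r (minpoly M y) = 0 := by
      have h6 := (mem_aroots.1 hr).2
      exact h6
    rw [← aeval_map_algebraMap M, hq, map_mul, h5, zero_mul]
  have h4 : aeval r (minpoly F (algebraMap E Ω y)) = 0 := by
    rw [minpoly.algebraMap_eq (algebraMap E Ω).injective]
    exact h3
  rw [← minpoly.eq_of_root (Algebra.IsAlgebraic.isAlgebraic (algebraMap E Ω y)) h4]

/-- Let the value group of the complete field `F` be divisible, and let the degree of `E` over `F`
be prime to the residue characteristic. Then the residue field of `E` is larger than the residue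
field of each proper subextension `M`. -/
theorem unramified (hdiv : ∀ m : ℕ, m ≠ 0 → ∀ a : F, ∃ b : F, ‖b‖ ^ m = ‖a‖)
    (E : Type) [Field E] [Algebra F E] [FiniteDimensional F E]
    (h1 : ‖((Module.finrank F E : ℕ) : F)‖ = 1) (M : IntermediateField F E) (hM : M ≠ ⊤) :
    ∃ y : E, spectralNorm F E y = 1 ∧ ∀ a ∈ M, 1 ≤ spectralNorm F E (y - a) := by
  by_contra hcon
  push Not at hcon
  have hn : ‖((Module.finrank M E : ℕ) : F)‖ = 1 := by
    have h2 : Module.finrank F M * Module.finrank M E = Module.finrank F E :=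
      Module.finrank_mul_finrank F M E
    rw [← h2, Nat.cast_mul, norm_mul] at h1
    have h3 := norm_nat_le (E := F) (Module.finrank F M)
    have h4 := norm_nat_le (E := F) (Module.finrank M E)
    have h5 := norm_nonneg (((Module.finrank F M : ℕ) : F))
    have h6 := norm_nonneg (((Module.finrank M E : ℕ) : F))
    nlinarith
  have hnF : ((Module.finrank M E : ℕ) : F) ≠ 0 := by
    rw [← norm_ne_zero_iff, hn]
    exact one_ne_zero
  have hnM : ((Module.finrank M E : ℕ) : M) ≠ 0 := by
    rw [← map_natCast (algebraMap F M)]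
    exact fun h => hnF ((map_eq_zero _).1 h)
  obtain ⟨y, hy⟩ : ∃ y : E, y ∉ M := by
    by_contra hc
    push Not at hc
    exact hM (eq_top_iff.2 fun x _ => hc x)
  obtain ⟨y0, hy0⟩ : ∃ y0 : E, y0 = y - (((Algebra.trace M E y) / ((Module.finrank M E : ℕ) : M) : M) : E) :=
    ⟨_, rfl⟩
  have htr : ∀ a : M, Algebra.trace M E (y0 - a) = -((Module.finrank M E : ℕ) : M) * a := by
    intro a
    have h2 : ∀ b : M, Algebra.trace M E (b : E) = ((Module.finrank M E : ℕ) : M) * b := by
      intro b
      have h3 := Algebra.trace_algebraMap (R := M) (S := E) b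
      rw [nsmul_eq_mul] at h3
      exact h3
    rw [hy0, map_sub, map_sub, h2, h2]
    field_simp
    ring
  have hy0M : y0 ∉ M := by
    intro h
    apply hy
    have h2 : y = y0 + (((Algebra.trace M E y) / ((Module.finrank M E : ℕ) : M) : M) : E) := by
      rw [hy0]
      ring
    rw [h2]
    exact M.add_mem h (SetLike.coe_mem _)
  have hy00 : y0 ≠ 0 := fun h => hy0M (h ▸ M.zero_mem)
  obtain ⟨c, hc⟩ := exists_norm_eq hdiv E y0
  have hpos : 0 < spectralNorm F E y0 :=
    spectralNorm_zero_lt hy00 (Algebra.IsAlgebraic.isAlgebraic y0)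
  have hc0 : c ≠ 0 := by
    rw [← norm_pos_iff, hc]
    exact hpos
  have hsc : ∀ (k : F) (z : E), spectralNorm F E (k • z) = ‖k‖ * spectralNorm F E z := by
    intro k z
    exact spectralNorm_smul k (Algebra.IsAlgebraic.isAlgebraic z)
  obtain ⟨a, haM, ha⟩ := hcon (c⁻¹ • y0) (by
    rw [hsc, norm_inv, hc, inv_mul_cancel₀ hpos.ne'])
  obtain ⟨a', ha'⟩ : ∃ a' : M, (a' : E) = c • a := ⟨⟨c • a, M.smul_mem haM⟩, rfl⟩
  have hlt : spectralNorm F E (y0 - a') < spectralNorm F E y0 := by
    have h2 : y0 - (a' : E) = c • (c⁻¹ • y0 - a) := by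
      rw [ha', smul_sub, smul_smul, mul_inv_cancel₀ hc0, one_smul]
    rw [h2, hsc, hc]
    calc spectralNorm F E y0 * spectralNorm F E (c⁻¹ • y0 - a)
        < spectralNorm F E y0 * 1 := mul_lt_mul_of_pos_left ha hpos
      _ = spectralNorm F E y0 := mul_one _
  have hle : spectralNorm F E (a' : E) ≤ spectralNorm F E (y0 - a') := by
    have h2 := spectral_trace_le E M (y0 - a')
    rw [htr a'] at h2
    have h3 : (((-((Module.finrank M E : ℕ) : M) * a' : M)) : E) =
        (-((Module.finrank M E : ℕ) : F)) • (a' : E) := by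
      rw [Algebra.smul_def, map_neg, map_natCast]
      push_cast
      rfl
    rw [h3, hsc, norm_neg, hn, one_mul] at h2
    exact h2
  have hfin : spectralNorm F E y0 ≤
      max (spectralNorm F E (y0 - a')) (spectralNorm F E (a' : E)) := by
    have h2 := isNonarchimedean_spectralNorm (K := F) (y0 - (a' : E)) (a' : E)
    rwa [sub_add_cancel] at h2
  rw [max_eq_left hle] at hfin
  linarith

end

end Pool.Agent.T9h43.TV
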