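import Pool.Agent.T9h43.TV.Grp3
import Pool.Agent.T9h43.TV.Unr

set_option autoImplicit false

/-! Places with a definable topology: the valuation ring is definable, or the value group is divisible
and all finite extensions are unramified of degree prime to the residue characteristic. -/

namespace Pool.Agent.T9h43.TV

open Polynomial Pool.Agent.W882.Nip3 Pool.Agent.N616.NH Pool.Agent.N616.NV Pool.Agent.T9h43.MC

/-- as `dfb_of_not_divisible`, for places with a definable bounded neighbourhood of zero -/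
theorem dfb_of_not_divisible_top (K : Type) [Field K] [FirstOrder.Ring.CompatibleRing K]
    (hK : NIPField K ∨ (∃ n, NIPnField n K) ∨ NTP2Field K) (P : Place K)
    (hult : ∀ a b : P.F, ‖a + b‖ ≤ max ‖a‖ ‖b‖) (U : Set K) (hU : DfS U) (ε : ℝ) (hε : 0 < ε)
    (hU1 : ∀ (x : K) (h : x ∈ P.O), ‖P.res ⟨x, h⟩‖ ≤ ε → x ∈ U)
    (hU2 : ∀ x ∈ U, ∃ h : x ∈ P.O, ‖P.res ⟨x, h⟩‖ ≤ 1 / ε)
    (O : ValuationSubring K) (hO : IsRingOf P O) {ℓ : ℕ} (hℓ : ℓ.Prime)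
    (hℓn : ‖(ℓ : P.F)‖ = 1) (a : P.F) (ha : ∀ b : P.F, ‖b‖ ^ ℓ ≠ ‖a‖) : Dfb O := by
  by_cases hpow : ∀ u : P.F, ‖u‖ = 1 → ∃ w : P.F, ‖u - w ^ ℓ‖ < 1
  · exact dfb_of_powers P hult U hU ε hε hU1 hU2 hO hℓ.two_le hℓn hpow a ha
  · push Not at hpow
    obtain ⟨u, hu, hw⟩ := hpow
    obtain ⟨t, ht⟩ := nt1_of P hult hO hℓ a ha (res_ext P hult hO hℓ hℓn u hu fun w =>
      not_lt.2 (hw w))
    exact (Pool.Agent.Results.MP_3554b5_lc.NonTameDefinable.result K hK).2.1 ℓ O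
      (Or.inl ⟨ℓ, le_rfl, t, ht⟩)

theorem dfb_or_divisible_top (K : Type) [Field K] [FirstOrder.Ring.CompatibleRing K]
    (n : ℕ) (hn : NIPnField n K) (P : Place K)
    (hult : ∀ a b : P.F, ‖a + b‖ ≤ max ‖a‖ ‖b‖) (U : Set K) (hU : DfS U) (ε : ℝ) (hε : 0 < ε)
    (hU1 : ∀ (x : K) (h : x ∈ P.O), ‖P.res ⟨x, h⟩‖ ≤ ε → x ∈ U)
    (hU2 : ∀ x ∈ U, ∃ h : x ∈ P.O, ‖P.res ⟨x, h⟩‖ ≤ 1 / ε)
    (O : ValuationSubring K) (hO : IsRingOf P O) :
    Dfb O ∨ ∀ m : ℕ, m ≠ 0 → ∀ a : P.F, ∃ b : P.F, ‖b‖ ^ m = ‖a‖ := by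
  have hul : IsUltrametricDist P.F :=
    IsUltrametricDist.isUltrametricDist_of_forall_norm_add_le_max_norm hult
  have hK' : NIPField K ∨ (∃ n, NIPnField n K) ∨ NTP2Field K := Or.inr (Or.inl ⟨n, hn⟩)
  by_contra hcon
  push Not at hcon
  obtain ⟨hdf, m, hm, a0, ha0⟩ := hcon
  obtain ⟨ℓ, hℓ, a, ha⟩ : ∃ ℓ : ℕ, ℓ.Prime ∧ ∃ a : P.F, ∀ b : P.F, ‖b‖ ^ ℓ ≠ ‖a‖ := by
    by_contra hc
    push Not at hc
    obtain ⟨b, hb⟩ := divisible_of_primes hc m hm a0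
    exact ha0 b hb
  by_cases hℓn : ‖(ℓ : P.F)‖ = 1
  · exact hdf (dfb_of_not_divisible_top K hK' P hult U hU ε hε hU1 hU2 O hO hℓ hℓn a ha)
  have hℓ1 : ‖(ℓ : P.F)‖ < 1 := lt_of_le_of_ne (norm_nat_le ℓ) hℓn
  have hmain := Pool.Agent.T9h43.MC.main P.F hℓ hℓ1 fun E _ _ _ _ _ =>
    Pool.Agent.T9h43.MC.no_pat n hn P hult U hU ε hε hU1 hU2 hℓ E
  rcases hmain with h1 | ⟨h0, ⟨π, hπ0, hπ1, hπ⟩, -⟩
  · have hroot : ∃ b : P.F, b ^ ℓ = a := by
      by_contra hb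
      push Not at hb
      have hirr := X_pow_sub_C_irreducible_of_prime hℓ hb
      have : Fact (Irreducible (X ^ ℓ - C a : P.F[X])) := ⟨hirr⟩
      have hmon : (X ^ ℓ - C a : P.F[X]).Monic := monic_X_pow_sub_C a hℓ.ne_zero
      have hfin : FiniteDimensional P.F (AdjoinRoot (X ^ ℓ - C a : P.F[X])) :=
        Module.Finite.of_basis (AdjoinRoot.powerBasisAux' hmon)
      refine h1 (AdjoinRoot (X ^ ℓ - C a : P.F[X])) ?_
      rw [Module.finrank_eq_card_basis (AdjoinRoot.powerBasisAux' hmon), Fintype.card_fin,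
        natDegree_X_pow_sub_C]
    obtain ⟨b, hb⟩ := hroot
    exact ha b (by rw [← norm_pow, hb])
  · obtain ⟨q, hq, hqr⟩ : ∃ q : ℕ, q.Prime ∧ q ≠ ℓ := by
      by_cases h : ℓ = 2
      · exact ⟨3, Nat.prime_three, by omega⟩
      · exact ⟨2, Nat.prime_two, fun h' => h h'.symm⟩
    exact hdf (dfb_of_not_divisible_top K hK' P hult U hU ε hε hU1 hU2 O hO hq
      (norm_prime hq hℓ hqr hℓ1) π fun b => not_pow_unif hq.two_le hπ0 hπ1 hπ b)

theorem exists_prime_of_norm {F : Type} [NormedField F] [IsUltrametricDist F] (n : ℕ) (hn : n ≠ 0)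
    (h : ‖(n : F)‖ ≠ 1) : ∃ p : ℕ, p.Prime ∧ p ∣ n ∧ ‖(p : F)‖ < 1 := by
  induction n using induction_on_primes with
  | zero => exact absurd rfl hn
  | one => exact absurd (by rw [Nat.cast_one, norm_one]) h
  | prime_mul p k hp ih =>
    have hk : k ≠ 0 := by
      rintro rfl
      exact hn (mul_zero p)
    by_cases h1 : ‖(p : F)‖ = 1
    · rw [Nat.cast_mul, norm_mul, h1, one_mul] at h
      obtain ⟨q, hq, hqk, hq1⟩ := ih hk h
      exact ⟨q, hq, hqk.mul_left p, hq1⟩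
    · exact ⟨p, hp, dvd_mul_right p k, lt_of_le_of_ne (norm_nat_le p) h1⟩

/-- If the value group is divisible, all finite extensions have degree prime to the residue
characteristic. -/
theorem degree_top (K : Type) [Field K] [FirstOrder.Ring.CompatibleRing K]
    (n : ℕ) (hn : NIPnField n K) (P : Place K)
    (hult : ∀ a b : P.F, ‖a + b‖ ≤ max ‖a‖ ‖b‖) (U : Set K) (hU : DfS U) (ε : ℝ) (hε : 0 < ε)
    (hU1 : ∀ (x : K) (h : x ∈ P.O), ‖P.res ⟨x, h⟩‖ ≤ ε → x ∈ U)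
    (hU2 : ∀ x ∈ U, ∃ h : x ∈ P.O, ‖P.res ⟨x, h⟩‖ ≤ 1 / ε)
    (hdiv : ∀ m : ℕ, m ≠ 0 → ∀ a : P.F, ∃ b : P.F, ‖b‖ ^ m = ‖a‖)
    (E : Type) [Field E] [Algebra P.F E] [FiniteDimensional P.F E] :
    ‖((Module.finrank P.F E : ℕ) : P.F)‖ = 1 := by
  have hul : IsUltrametricDist P.F :=
    IsUltrametricDist.isUltrametricDist_of_forall_norm_add_le_max_norm hult
  by_contra hne
  obtain ⟨p, hp, hpE, hp1⟩ := exists_prime_of_norm _ Module.finrank_pos.ne' hne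
  have hmain := Pool.Agent.T9h43.MC.main P.F hp hp1 fun E _ _ _ _ _ =>
    Pool.Agent.T9h43.MC.no_pat n hn P hult U hU ε hε hU1 hU2 hp E
  rcases hmain with h | ⟨-, ⟨π, hπ0, hπ1, hπ⟩, -⟩
  · exact h E hpE
  · obtain ⟨b, hb⟩ := hdiv 2 two_ne_zero π
    have hπp : 0 < ‖π‖ := norm_pos_iff.2 hπ0
    have hb1 : ‖b‖ < 1 := by
      by_contra hc
      push Not at hc
      have h1 : 1 ≤ ‖b‖ ^ 2 := one_le_pow₀ hc
      linarith
    have h2 := hπ b hb1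
    have h3 : 0 < ‖b‖ := by
      rcases (norm_nonneg b).eq_or_lt with h0 | h0
      · rw [← h0, zero_pow two_ne_zero] at hb
        linarith
      · exact h0
    nlinarith

end Pool.Agent.T9h43.TV
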