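import Pool.Agent.T9h43.TV.Ext
import Pool.Agent.T9h43.MC.Main
import Pool.Agent.Results.MP_3554b5_lc.PlacesOfHigherDimension

set_option autoImplicit false

/-! The subgroup for places of residue characteristic `r > 0` of NIP fields. -/

namespace Pool.Agent.T9h43.TV

open Pool.Agent.W882.Nip3 Pool.Agent.N616.NH Pool.Agent.N616.NV Pool.Agent.N616.NH.DJ_
  Pool.Agent.T9h43.MC

theorem norm_nat_le {E : Type*} [NormedField E] [IsUltrametricDist E] (n : ℕ) : ‖(n : E)‖ ≤ 1 := by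
  induction n with
  | zero => simp
  | succ n ih =>
    rw [Nat.cast_succ]
    exact (IsUltrametricDist.norm_add_le_max _ _).trans (max_le ih norm_one.le)

theorem norm_int_le {E : Type*} [NormedField E] [IsUltrametricDist E] (n : ℤ) : ‖(n : E)‖ ≤ 1 := by
  rcases Int.eq_nat_or_neg n with ⟨m, rfl | rfl⟩
  · rw [Int.cast_natCast]
    exact norm_nat_le m
  · rw [Int.cast_neg, norm_neg, Int.cast_natCast]
    exact norm_nat_le m

theorem norm_prime {E : Type*} [NormedField E] [IsUltrametricDist E] {q r : ℕ} (hq : q.Prime)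
    (hr : r.Prime) (hqr : q ≠ r) (hrn : ‖(r : E)‖ < 1) : ‖(q : E)‖ = 1 := by
  refine le_antisymm (norm_nat_le q) ?_
  by_contra hlt
  rw [not_le] at hlt
  have hcop : IsCoprime (q : ℤ) (r : ℤ) := by
    rw [Nat.isCoprime_iff_coprime]
    exact (Nat.coprime_primes hq hr).2 hqr
  obtain ⟨a, b, hab⟩ := hcop
  have h1 : (a : E) * (q : E) + (b : E) * (r : E) = 1 := by
    have := congrArg (Int.cast : ℤ → E) hab
    simpa using this
  have h2 : ‖(1 : E)‖ < 1 := by
    rw [← h1]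
    refine (IsUltrametricDist.norm_add_le_max _ _).trans_lt (max_lt ?_ ?_)
    · rw [norm_mul]
      calc ‖(a : E)‖ * ‖(q : E)‖ ≤ 1 * ‖(q : E)‖ :=
            mul_le_mul_of_nonneg_right (norm_int_le a) (norm_nonneg _)
        _ < 1 := by rwa [one_mul]
    · rw [norm_mul]
      calc ‖(b : E)‖ * ‖(r : E)‖ ≤ 1 * ‖(r : E)‖ :=
            mul_le_mul_of_nonneg_right (norm_int_le b) (norm_nonneg _)
        _ < 1 := by rwa [one_mul]
  rw [norm_one] at h2
  exact lt_irrefl _ h2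

/-- A field of dimension greater than one has a finite separable extension of degree divisible by
some prime number, for every prime number that divides the degree of `L / M`. -/
theorem exists_prime_degree {F : Type} [Field F] {D : ℕ} (hD : ¬ DimLeOneUpTo F D) :
    ∃ (M : Type) (_ : Field M) (_ : Algebra F M) (_ : FiniteDimensional F M)
      (_ : Algebra.IsSeparable F M), ∃ q : ℕ, q.Prime ∧ q ∣ Module.finrank F M := by
  unfold DimLeOneUpTo at hD
  push Not at hD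
  obtain ⟨M, _, _, h1, h2, h3, L, _, _, h4, h5, h6, h7⟩ := hD
  let _ : Algebra F L := ((algebraMap M L).comp (algebraMap F M)).toAlgebra
  have _ : IsScalarTower F M L := IsScalarTower.of_algebraMap_eq fun _ => rfl
  have hfin : FiniteDimensional F L := Module.Finite.trans M L
  have hsep : Algebra.IsSeparable F L := Algebra.IsSeparable.trans F M L
  have h8 : Module.finrank M L ≠ 1 := by
    intro h
    apply h7
    intro x
    refine ⟨algebraMap M L x, ?_⟩
    rw [Algebra.norm_algebraMap, h, pow_one]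
  refine ⟨L, inferInstance, inferInstance, hfin, hsep, Nat.minFac (Module.finrank M L),
    Nat.minFac_prime h8, ?_⟩
  rw [← Module.finrank_mul_finrank F M L]
  exact (Nat.minFac_dvd _).mul_left _

/-- The subgroup for places of residue characteristic `r > 0` of NIP fields. -/
theorem ext_nip (K : Type) [Field K] [FirstOrder.Ring.CompatibleRing K] (n : ℕ)
    (hn : NIPnField n K) (P : Place K) (hult : ∀ a b : P.F, ‖a + b‖ ≤ max ‖a‖ ‖b‖) (N : ℕ)
    (hN : ¬ DimLeOneUpTo P.F N) (r : ℕ) (hr : r.Prime) (hrn : ‖(r : P.F)‖ < 1) :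
    ∃ q : ℕ, q.Prime ∧ q ≠ r ∧ ∃ (L : Type) (_ : Field L) (_ : Algebra K L)
      (_ : FiniteDimensional K L) (T : Set L)
      (A : ValuationSubring L) (c : L), D K (fun v : Fin 1 → L => v 0 ∈ T) ∧ (0 : L) ∉ T ∧
      (∀ x ∈ T, ∀ y ∈ T, x * y ∈ T) ∧ (∀ x ∈ T, x⁻¹ ∈ T) ∧ (∀ x : L, x ≠ 0 → x ^ q ∈ T) ∧
      c ≠ 0 ∧ c ∉ T ∧ A ≠ ⊤ ∧ (∀ x : L, A.valuation x < 1 → 1 + x ∈ T) ∧
      (∀ x : K, algebraMap K L x ∈ A ↔ ∃ h : x ∈ P.O, ‖P.res ⟨x, h⟩‖ ≤ 1) ∧
      A.valuation (r : L) < 1 := by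
  have hul : IsUltrametricDist P.F :=
    IsUltrametricDist.isUltrametricDist_of_forall_norm_add_le_max_norm hult
  obtain ⟨U, ε, hU, hε, hU1, hU2⟩ :=
    (Pool.Agent.Results.MP_3554b5_lc.PlacesOfHigherDimension.result K
      (Or.inr (Or.inl ⟨n, hn⟩))).1 P N hult hN
  -- the last clause
  have hlast : ∀ (L : Type) [Field L] [Algebra K L] (A : ValuationSubring L),
      (∀ x : K, algebraMap K L x ∈ A ↔ ∃ h : x ∈ P.O, ‖P.res ⟨x, h⟩‖ ≤ 1) →
      A.valuation (r : L) < 1 := by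
    intro L _ _ A hA
    have h1 : (r : L) ∈ A := natCast_mem A r
    rw [lt_iff_le_and_ne]
    refine ⟨(A.valuation_le_one_iff _).2 h1, fun h => ?_⟩
    have h0 : (r : L) ≠ 0 := by
      intro h0
      rw [h0, map_zero] at h
      exact zero_ne_one h
    have h2 : ((r : L))⁻¹ ∈ A := by
      rw [← A.valuation_le_one_iff, map_inv₀, h, inv_one]
    have h3 : ((r : L))⁻¹ = algebraMap K L ((r : K)⁻¹) := by
      rw [map_inv₀, map_natCast]
    rw [h3, hA] at h2
    obtain ⟨h4, h5⟩ := h2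
    have h6 : (⟨(r : K)⁻¹, h4⟩ : P.O) * (r : P.O) = 1 := by
      refine Subtype.ext ?_
      show (r : K)⁻¹ * ((r : P.O) : K) = 1
      have h7 : ((r : P.O) : K) = (r : K) := by simp
      rw [h7]
      refine inv_mul_cancel₀ ?_
      intro h8
      apply h0
      rw [← map_natCast (algebraMap K L), h8, map_zero]
    have h7 : ‖P.res ⟨(r : K)⁻¹, h4⟩‖ * ‖(r : P.F)‖ = 1 := by
      rw [← map_natCast P.res, ← norm_mul, ← map_mul, h6, map_one, norm_one]
    have h8 : ‖P.res ⟨(r : K)⁻¹, h4⟩‖ * ‖(r : P.F)‖ < 1 := by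
      calc ‖P.res ⟨(r : K)⁻¹, h4⟩‖ * ‖(r : P.F)‖ ≤ 1 * ‖(r : P.F)‖ :=
            mul_le_mul_of_nonneg_right h5 (norm_nonneg _)
        _ < 1 := by rwa [one_mul]
    rw [h7] at h8
    exact lt_irrefl _ h8
  have hmain := Pool.Agent.T9h43.MC.main P.F hr hrn fun E _ _ _ _ _ =>
    Pool.Agent.T9h43.MC.no_pat n hn P hult U hU ε hε hU1 hU2 hr E
  rcases hmain with h1 | ⟨h0, ⟨π, hπ0, hπ1, hπ⟩, -⟩
  · obtain ⟨M, _, _, _, _, q, hq, hqM⟩ := exists_prime_degree hN
    have hqr : q ≠ r := by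
      rintro rfl
      exact h1 M hqM
    obtain ⟨L, i1, i2, i3, T, A, c, a1, a2, a3, a4, a5, a6, a7, a8, a9, a10⟩ :=
      ext_T P hult U hU ε hε hU1 hU2 hq (norm_prime hq hr hqr hrn) M hqM
    exact ⟨q, hq, hqr, L, i1, i2, i3, T, A, c, a1, a2, a3, a4, a5, a6, a7, a8, a9, a10,
      hlast L A a10⟩
  · obtain ⟨q, hq, hqr⟩ : ∃ q : ℕ, q.Prime ∧ q ≠ r := by
      by_cases h : r = 2
      · exact ⟨3, Nat.prime_three, by omega⟩
      · exact ⟨2, Nat.prime_two, fun h' => h h'.symm⟩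
    obtain ⟨L, i1, i2, i3, T, A, c, a1, a2, a3, a4, a5, a6, a7, a8, a9, a10⟩ :=
      ext_E P U hU ε hε hU1 hU2 hq.ne_zero (norm_prime hq hr hqr hrn) P.F π (fun y hy => by
        have h2 : ‖y‖ ^ q = ‖π‖ := by rw [← norm_pow, hy]
        have h3 : ‖y‖ < 1 := by
          by_contra h
          rw [not_lt] at h
          have := one_le_pow₀ h (n := q)
          rw [h2] at this
          exact absurd hπ1 (not_lt.2 this)
        have h4 := hπ y h3
        have hπp : 0 < ‖π‖ := norm_pos_iff.2 hπ0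
        have h5 : ‖y‖ ^ q ≤ ‖π‖ ^ q := pow_le_pow_left₀ (norm_nonneg _) h4 q
        have h6 : ‖π‖ ^ q < ‖π‖ := pow_lt_self_of_lt_one₀ hπp hπ1 hq.one_lt
        rw [h2] at h5
        exact absurd (h5.trans_lt h6) (lt_irrefl _))
    exact ⟨q, hq, hqr, L, i1, i2, i3, T, A, c, a1, a2, a3, a4, a5, a6, a7, a8, a9, a10,
      hlast L A a10⟩

end Pool.Agent.T9h43.TV
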