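import Pool.Agent.T9h43.TV.Grp2
import Mathlib.Algebra.Ring.SumsOfSquares
import Mathlib.Algebra.Order.Ring.Cone
import Mathlib.Algebra.Order.Ring.Ordering.Basic

set_option autoImplicit false

/-! Places with values in an ultrametric field which has a unique ordering: the elements which are
squares, up to squares, in the residue field are a definable set, closed under sums. Either it is
the set of positive elements of an ordering, or some element and its negative are not in it. -/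

namespace Pool.Agent.T9h43.TV

open Polynomial Topology Filter FirstOrder Pool.Agent.W882.Nip3 Pool.Agent.N616.NH
  Pool.Agent.N616.NV Pool.Agent.N616.NV.PB_ Pool.Agent.T9h43.MC Pool.Agent.T9h43.NF
  Pool.Agent.N616.NH.DFB_ Pool.Agent.N616.NH.DFA_ Pool.Agent.N616.NV.VD_

/-- The elements which are squares at the place, up to squares. -/
def SqP {K : Type} [Field K] (P : Place K) : Set K :=
  {x | ∃ y : K, y ≠ 0 ∧ ∃ h : x * y ^ 2 ∈ P.O, ∃ f : P.F, f ≠ 0 ∧ P.res ⟨x * y ^ 2, h⟩ = f ^ 2}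

section

variable {K : Type} [Field K] (P : Place K)

theorem sqP_zero : (0 : K) ∉ SqP P := by
  rintro ⟨y, -, h, f, hf, hres⟩
  have h1 : (⟨0 * y ^ 2, h⟩ : P.O) = 0 := Subtype.ext (zero_mul _)
  rw [h1, map_zero] at hres
  exact pow_ne_zero 2 hf hres.symm

theorem sqP_ne_zero {x : K} (hx : x ∈ SqP P) : x ≠ 0 := by
  rintro rfl
  exact sqP_zero P hx

theorem sqP_neg_one (hs : ¬ IsSumSq (-1 : P.F)) : (-1 : K) ∉ SqP P := by
  rintro ⟨y, hy0, h, f, hf, hres⟩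
  have h1 : y ^ 2 ∈ P.O := by
    have h2 := P.O.neg_mem _ h
    have h3 : -(-1 * y ^ 2) = y ^ 2 := by ring
    rwa [h3] at h2
  have h2 : y ∈ P.O := mem_of_pow P two_ne_zero h1
  have h3 : (⟨-1 * y ^ 2, h⟩ : P.O) = - (⟨y, h2⟩ : P.O) ^ 2 := by
    refine Subtype.ext ?_
    push_cast
    ring
  rw [h3, map_neg, map_pow] at hres
  set g := P.res ⟨y, h2⟩ with hg
  have hg0 : g ≠ 0 := by
    rintro h0
    rw [h0, zero_pow two_ne_zero, neg_zero] at hres
    exact pow_ne_zero 2 hf hres.symm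
  apply hs
  have h4 : (-1 : P.F) = (f / g) * (f / g) := by
    field_simp
    linear_combination hres
  rw [h4]
  exact IsSumSq.mul_self _

theorem sqP_mul {x y : K} (hx : x ∈ SqP P) (hy : y ∈ SqP P) : x * y ∈ SqP P := by
  obtain ⟨a, ha0, ha, f, hf, hfr⟩ := hx
  obtain ⟨b, hb0, hb, g, hg, hgr⟩ := hy
  have e : x * y * (a * b) ^ 2 = (x * a ^ 2) * (y * b ^ 2) := by ring
  refine ⟨a * b, mul_ne_zero ha0 hb0, by rw [e]; exact P.O.mul_mem _ _ ha hb, f * g,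
    mul_ne_zero hf hg, ?_⟩
  have h1 : (⟨x * y * (a * b) ^ 2, by rw [e]; exact P.O.mul_mem _ _ ha hb⟩ : P.O) =
      ⟨x * a ^ 2, ha⟩ * ⟨y * b ^ 2, hb⟩ := Subtype.ext e
  rw [h1, map_mul, hfr, hgr, mul_pow]

theorem sqP_inv {x : K} (hx : x ∈ SqP P) : x⁻¹ ∈ SqP P := by
  have hx0 := sqP_ne_zero P hx
  obtain ⟨a, ha0, ha, f, hf, hfr⟩ := hx
  have e : x⁻¹ * (x * a) ^ 2 = x * a ^ 2 := by
    field_simp
  refine ⟨x * a, mul_ne_zero hx0 ha0, by rw [e]; exact ha, f, hf, ?_⟩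
  have h1 : (⟨x⁻¹ * (x * a) ^ 2, by rw [e]; exact ha⟩ : P.O) = ⟨x * a ^ 2, ha⟩ := Subtype.ext e
  rw [h1, hfr]

theorem sqP_sq {x : K} (hx : x ≠ 0) : x ^ 2 ∈ SqP P := by
  have e : x ^ 2 * x⁻¹ ^ 2 = 1 := by
    field_simp
  refine ⟨x⁻¹, inv_ne_zero hx, by rw [e]; exact P.O.one_mem, 1, one_ne_zero, ?_⟩
  have h1 : (⟨x ^ 2 * x⁻¹ ^ 2, by rw [e]; exact P.O.one_mem⟩ : P.O) = 1 := Subtype.ext e
  rw [h1, map_one, one_pow]

theorem sqP_of_res (x : P.O) {f : P.F} (hf : f ≠ 0) (h : P.res x = f ^ 2) : (x : K) ∈ SqP P := by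
  refine ⟨1, one_ne_zero, by rw [one_pow, mul_one]; exact x.2, f, hf, ?_⟩
  have h1 : (⟨(x : K) * 1 ^ 2, by rw [one_pow, mul_one]; exact x.2⟩ : P.O) = x :=
    Subtype.ext (by show (x : K) * 1 ^ 2 = (x : K); rw [one_pow, mul_one])
  rw [h1, h]

theorem sqP_near_one (hult : ∀ a b : P.F, ‖a + b‖ ≤ max ‖a‖ ‖b‖) (h2 : ‖(2 : P.F)‖ = 1)
    (x : P.O) (hx : ‖P.res x‖ < 1) : 1 + (x : K) ∈ SqP P := by
  have : IsUltrametricDist P.F :=
    IsUltrametricDist.isUltrametricDist_of_forall_norm_add_le_max_norm hult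
  obtain ⟨c, hc, hc1⟩ := root_near_one (q := 2) (by exact_mod_cast h2) (P.res x) hx
  have hc0 : c ≠ 0 := by
    rintro rfl
    rw [zero_sub, norm_neg, norm_one] at hc1
    exact lt_irrefl _ hc1
  have h3 := sqP_of_res P (1 + x) hc0 (by rw [map_add, map_one, hc])
  exact_mod_cast h3

/-- `t⁻¹` is small if `t` is not in the ring. -/
theorem inv_small {t : K} (ht : t ∉ P.O) : ∃ h : t⁻¹ ∈ P.O, P.res ⟨t⁻¹, h⟩ = 0 := by
  have h1 : t⁻¹ ∈ P.O := (P.O.mem_or_inv_mem t).resolve_left ht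
  refine ⟨h1, ?_⟩
  by_contra h0
  obtain ⟨y, -, hy⟩ := inv_elt P ⟨t⁻¹, h1⟩ h0
  rw [inv_inv] at hy
  exact ht (hy ▸ y.2)

theorem sqP_one_add (hult : ∀ a b : P.F, ‖a + b‖ ≤ max ‖a‖ ‖b‖) (h2 : ‖(2 : P.F)‖ = 1)
    (hs : ¬ IsSumSq (-1 : P.F)) (hr : ∀ a : P.F, IsSquare a ∨ IsSquare (-a)) {t : K}
    (ht : t ∈ SqP P) : 1 + t ∈ SqP P := by
  have ht0 := sqP_ne_zero P ht
  by_cases hO : t ∈ P.O
  · by_cases h0 : P.res ⟨t, hO⟩ = 0
    · exact sqP_near_one P hult h2 ⟨t, hO⟩ (by rw [h0, norm_zero]; exact one_pos)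
    · obtain ⟨z, hz0, hz, f, hf, hres⟩ := ht
      obtain ⟨u, hu, hu'⟩ := inv_elt P ⟨t, hO⟩ h0
      have hz2 : z ^ 2 ∈ P.O := by
        have h3 := P.O.mul_mem _ _ u.2 hz
        have h4 : (u : K) * (t * z ^ 2) = z ^ 2 := by
          rw [hu']
          field_simp
        rwa [h4] at h3
      have hzO : z ∈ P.O := mem_of_pow P two_ne_zero hz2
      have h3 : (⟨t * z ^ 2, hz⟩ : P.O) = ⟨t, hO⟩ * ⟨z, hzO⟩ ^ 2 := Subtype.ext (by push_cast; rfl)
      rw [h3, map_mul, map_pow] at hres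
      set g := P.res ⟨z, hzO⟩ with hg
      set a := P.res ⟨t, hO⟩ with ha
      have hg0 : g ≠ 0 := by
        intro h4
        rw [h4, zero_pow two_ne_zero, mul_zero] at hres
        exact pow_ne_zero 2 hf hres.symm
      have ha' : a = (f / g) * (f / g) := by
        field_simp
        linear_combination hres
      rcases hr (1 + a) with ⟨s, hs1⟩ | ⟨s, hs1⟩
      · have hs0 : s ≠ 0 := by
          rintro rfl
          apply hs
          have : (-1 : P.F) = (f / g) * (f / g) := by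
            rw [← ha']
            linear_combination -hs1
          rw [this]
          exact IsSumSq.mul_self _
        have h4 := sqP_of_res P (1 + ⟨t, hO⟩) hs0 (by
          rw [map_add, map_one, ← ha, hs1, pow_two])
        exact_mod_cast h4
      · exfalso
        apply hs
        have : (-1 : P.F) = (f / g) * (f / g) + s * s := by
          rw [← ha', ← hs1]
          ring
        rw [this]
        exact IsSumSq.add (IsSumSq.mul_self _) (IsSumSq.mul_self _)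
  · obtain ⟨h1, h3⟩ := inv_small P hO
    have h4 := sqP_near_one P hult h2 ⟨t⁻¹, h1⟩ (by rw [h3, norm_zero]; exact one_pos)
    have h5 := sqP_mul P ht h4
    have h6 : t * (1 + t⁻¹) = 1 + t := by
      rw [mul_add, mul_one, mul_inv_cancel₀ ht0, add_comm]
    rwa [h6] at h5

theorem sqP_add (hult : ∀ a b : P.F, ‖a + b‖ ≤ max ‖a‖ ‖b‖) (h2 : ‖(2 : P.F)‖ = 1)
    (hs : ¬ IsSumSq (-1 : P.F)) (hr : ∀ a : P.F, IsSquare a ∨ IsSquare (-a)) {x y : K}
    (hx : x ∈ SqP P) (hy : y ∈ SqP P) : x + y ∈ SqP P := by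
  have hx0 := sqP_ne_zero P hx
  have h1 := sqP_mul P hx (sqP_one_add P hult h2 hs hr (sqP_mul P hy (sqP_inv P hx)))
  have h3 : x * (1 + y * x⁻¹) = x + y := by
    rw [mul_add, mul_one, mul_comm y, mul_inv_cancel_left₀ hx0]
  rwa [h3] at h1

/-- If `y / x` is small and `x` is in the set then `x - y` is in the set. -/
theorem sqP_sub (hult : ∀ a b : P.F, ‖a + b‖ ≤ max ‖a‖ ‖b‖) (h2 : ‖(2 : P.F)‖ = 1) {x y : K}
    (hx : x ∈ SqP P) (hyx : ∃ h : y * x⁻¹ ∈ P.O, ‖P.res ⟨y * x⁻¹, h⟩‖ < 1) : x - y ∈ SqP P := by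
  have hx0 := sqP_ne_zero P hx
  obtain ⟨h, h1⟩ := hyx
  have h3 := sqP_near_one P hult h2 (-⟨y * x⁻¹, h⟩) (by rw [map_neg, norm_neg]; exact h1)
  have h4 := sqP_mul P hx h3
  have h5 : x * (1 + ((-⟨y * x⁻¹, h⟩ : P.O) : K)) = x - y := by
    push_cast
    rw [mul_add, mul_one, mul_neg, mul_comm y, mul_inv_cancel_left₀ hx0, sub_eq_add_neg]
  rwa [h5] at h4

/-- `y / x` is small if `y` is bounded and `x` is not. -/
theorem div_small {x y : K} (hy : ∃ h : y ∈ P.O, ‖P.res ⟨y, h⟩‖ ≤ 1)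
    (hx : ¬ ∃ h : x ∈ P.O, ‖P.res ⟨x, h⟩‖ ≤ 1) :
    ∃ h : y * x⁻¹ ∈ P.O, ‖P.res ⟨y * x⁻¹, h⟩‖ < 1 := by
  obtain ⟨hyO, hy1⟩ := hy
  by_cases hxO : x ∈ P.O
  · have h1 : 1 < ‖P.res ⟨x, hxO⟩‖ := by
      by_contra h
      exact hx ⟨hxO, not_lt.1 h⟩
    obtain ⟨u, hu, hu'⟩ := inv_elt P ⟨x, hxO⟩ (by
      intro h0
      rw [h0, norm_zero] at h1
      exact absurd h1 (not_lt.2 zero_le_one))
    have h3 := res_mul_eq_one P hu
    have h4 : ((⟨y, hyO⟩ * u : P.O) : K) = y * x⁻¹ := by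
      show y * (u : K) = y * x⁻¹
      rw [hu']
    refine ⟨by rw [← h4]; exact (⟨y, hyO⟩ * u : P.O).2, ?_⟩
    have h5 : (⟨y * x⁻¹, by rw [← h4]; exact (⟨y, hyO⟩ * u : P.O).2⟩ : P.O) = ⟨y, hyO⟩ * u :=
      Subtype.ext h4.symm
    rw [h5, map_mul, norm_mul]
    have h6 : ‖P.res u‖ < 1 := by
      by_contra h
      rw [not_lt] at h
      nlinarith [norm_nonneg (P.res u), norm_nonneg (P.res ⟨x, hxO⟩)]
    calc ‖P.res ⟨y, hyO⟩‖ * ‖P.res u‖ ≤ 1 * ‖P.res u‖ :=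
          mul_le_mul_of_nonneg_right hy1 (norm_nonneg _)
      _ < 1 := by rwa [one_mul]
  · obtain ⟨h1, h3⟩ := inv_small P hxO
    refine ⟨P.O.mul_mem _ _ hyO h1, ?_⟩
    have h5 : (⟨y * x⁻¹, P.O.mul_mem _ _ hyO h1⟩ : P.O) = ⟨y, hyO⟩ * ⟨x⁻¹, h1⟩ := rfl
    rw [h5, map_mul, h3, mul_zero, norm_zero]
    exact one_pos

end

section

variable {K : Type} [Field K] [FirstOrder.Ring.CompatibleRing K] (P : Place K)

theorem dfS_sqP (hult : ∀ a b : P.F, ‖a + b‖ ≤ max ‖a‖ ‖b‖) (U : Set K) (hU : DfS U) (ε : ℝ)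
    (hε : 0 < ε) (hU1 : ∀ (x : K) (h : x ∈ P.O), ‖P.res ⟨x, h⟩‖ ≤ ε → x ∈ U)
    (hU2 : ∀ x ∈ U, ∃ h : x ∈ P.O, ‖P.res ⟨x, h⟩‖ ≤ 1 / ε) (h2 : ‖(2 : P.F)‖ = 1) :
    DfK {u : Fin 1 → K | u 0 ∈ SqP P} := by
  have : IsUltrametricDist P.F :=
    IsUltrametricDist.isUltrametricDist_of_forall_norm_add_le_max_norm hult
  -- a small element
  obtain ⟨c, hc0, hcε⟩ : ∃ c : P.O, P.res c ≠ 0 ∧ ‖P.res c‖ < ε := by
    obtain ⟨f, hf0, hf⟩ := NormedField.exists_norm_lt P.F hε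
    obtain ⟨x, hx⟩ := pick P.denseRange (y := f) (Q := fun y => ‖f - y‖ < ‖f‖) (by
      have h1 : Continuous fun y : P.F => ‖f - y‖ := by fun_prop
      exact h1.continuousAt.eventually_lt continuousAt_const (by simpa using hf0))
    have hx' : ‖P.res x‖ = ‖f‖ := norm_eq_of_sub_lt hx
    exact ⟨x, by rw [← norm_pos_iff, hx']; exact hf0, by rw [hx']; exact hf⟩
  have hcK : (c : K) ≠ 0 := by
    intro h0
    apply hc0
    have : c = 0 := Subtype.ext h0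
    rw [this, map_zero]
  have h1 : DfK {u : Fin 1 → K | ∃ y : Fin 1 → K, y 0 ≠ 0 ∧ (c : K)⁻¹ * (u 0 * y 0 ^ 2 - 1) ∈ U} := by
    apply dfK_ex 1 (Φ := fun (u : Fin 1 → K) (y : Fin 1 → K) =>
      y 0 ≠ 0 ∧ (c : K)⁻¹ * (u 0 * y 0 ^ 2 - 1) ∈ U)
    exact dfK_and (dfK_not (dfk_eq (Tm.var _) (Tm.const 0))) (dfk_substU hU ((Tm.const _).mul
      (tm_sub ((Tm.var _).mul (tm_pow (Tm.var _) 2)) (Tm.const 1))))
  have e : {u : Fin 1 → K | u 0 ∈ SqP P} =
      {u : Fin 1 → K | ∃ y : Fin 1 → K, y 0 ≠ 0 ∧ (c : K)⁻¹ * (u 0 * y 0 ^ 2 - 1) ∈ U} := by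
    ext u
    constructor
    · rintro ⟨y, hy0, h, f, hf, hres⟩
      -- approximate the inverse of `f`
      have hfp : 0 < ε * ‖P.res c‖ := mul_pos hε (norm_pos_iff.2 hc0)
      obtain ⟨w, hw⟩ := pick P.denseRange (y := f⁻¹)
        (Q := fun z => ‖f ^ 2 * z ^ 2 - 1‖ < min (ε * ‖P.res c‖) 1) (by
          have h3 : Continuous fun z : P.F => ‖f ^ 2 * z ^ 2 - 1‖ := by fun_prop
          refine h3.continuousAt.eventually_lt continuousAt_const ?_
          have h4 : f ^ 2 * f⁻¹ ^ 2 - 1 = 0 := by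
            field_simp
            ring
          rw [h4, norm_zero]
          exact lt_min hfp one_pos)
      have hw0 : (w : K) ≠ 0 := by
        intro h0
        have h4 : w = 0 := Subtype.ext h0
        rw [h4, map_zero, zero_pow two_ne_zero, mul_zero, zero_sub, norm_neg, norm_one] at hw
        exact absurd (min_le_right (ε * ‖P.res c‖) 1) (not_le.2 hw)
      refine ⟨fun _ => y * w, mul_ne_zero hy0 hw0, ?_⟩
      obtain ⟨c', hcc', hc'⟩ := inv_elt P c hc0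
      have h5 : (c : K)⁻¹ * (u 0 * (y * w) ^ 2 - 1) =
          ((c' * (⟨u 0 * y ^ 2, h⟩ * w ^ 2 - 1) : P.O) : K) := by
        push_cast
        rw [hc']
        ring
      show (c : K)⁻¹ * (u 0 * (y * w) ^ 2 - 1) ∈ U
      rw [h5]
      refine hU1 _ (c' * (⟨u 0 * y ^ 2, h⟩ * w ^ 2 - 1) : P.O).2 ?_
      show ‖P.res (c' * (⟨u 0 * y ^ 2, h⟩ * w ^ 2 - 1))‖ ≤ ε
      rw [map_mul, map_sub, map_mul, map_pow, map_one, hres, norm_mul]
      have h6 := res_mul_eq_one P hcc'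
      have h7 := (hw.trans_le (min_le_left _ _)).le
      calc ‖P.res c'‖ * ‖f ^ 2 * P.res w ^ 2 - 1‖ ≤ ‖P.res c'‖ * (ε * ‖P.res c‖) :=
            mul_le_mul_of_nonneg_left h7 (norm_nonneg _)
        _ = ε * (‖P.res c‖ * ‖P.res c'‖) := by ring
        _ = ε := by rw [h6, mul_one]
    · rintro ⟨y, hy0, hy⟩
      obtain ⟨h3, h4⟩ := hU2 _ hy
      have h5 : u 0 * y 0 ^ 2 = 1 + ((c * ⟨_, h3⟩ : P.O) : K) := by
        push_cast
        field_simp
        ring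
      have h6 : ‖P.res (c * ⟨_, h3⟩)‖ < 1 := by
        rw [map_mul, norm_mul]
        calc ‖P.res c‖ * ‖P.res ⟨_, h3⟩‖ ≤ ‖P.res c‖ * (1 / ε) :=
              mul_le_mul_of_nonneg_left h4 (norm_nonneg _)
          _ < ε * (1 / ε) := mul_lt_mul_of_pos_right hcε (by positivity)
          _ = 1 := by field_simp
      have h7 := sqP_near_one P hult h2 _ h6
      rw [← h5] at h7
      have h8 := sqP_mul P h7 (sqP_inv P (sqP_sq P hy0))
      have h9 : u 0 * y 0 ^ 2 * (y 0 ^ 2)⁻¹ = u 0 := by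
        field_simp
      rw [h9] at h8
      exact h8
  rw [e]
  exact h1

/-- **The real case.** -/
theorem real_case (K : Type) [Field K] [FirstOrder.Ring.CompatibleRing K] (P : Place K)
    (hult : ∀ a b : P.F, ‖a + b‖ ≤ max ‖a‖ ‖b‖) (U : Set K) (hU : DfS U) (ε : ℝ) (hε : 0 < ε)
    (hU1 : ∀ (x : K) (h : x ∈ P.O), ‖P.res ⟨x, h⟩‖ ≤ ε → x ∈ U)
    (hU2 : ∀ x ∈ U, ∃ h : x ∈ P.O, ‖P.res ⟨x, h⟩‖ ≤ 1 / ε) (h2 : ‖(2 : P.F)‖ = 1)
    (hs : ¬ IsSumSq (-1 : P.F)) (hr : ∀ a : P.F, IsSquare a ∨ IsSquare (-a)) :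
    ∃ T : Set K, DfS T ∧ (0 : K) ∉ T ∧ (-1 : K) ∉ T ∧
      (∀ x ∈ T, ∀ y ∈ T, x * y ∈ T) ∧ (∀ x ∈ T, x⁻¹ ∈ T) ∧ (∀ x : K, x ≠ 0 → x ^ 2 ∈ T) ∧
      (∀ (x : K) (h : x ∈ P.O), ‖P.res ⟨x, h⟩‖ < 1 → 1 + x ∈ T) ∧
      (∀ x ∈ T, ∀ y ∈ T, x + y ∈ T) ∧
      ((∃ c : K, c ≠ 0 ∧ c ∉ T ∧ -c ∉ T) ∨
        ∃ (_ : LinearOrder K) (_ : IsStrictOrderedRing K), (∀ x : K, x ∈ T ↔ 0 < x) ∧
          DfS {x : K | 0 ≤ x} ∧ ∀ x y : K, 0 ≤ x → x ≤ y →
            (∃ h : y ∈ P.O, ‖P.res ⟨y, h⟩‖ ≤ 1) → ∃ h : x ∈ P.O, ‖P.res ⟨x, h⟩‖ ≤ 1) := by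
  classical
  have hdf := dfS_sqP P hult U hU ε hε hU1 hU2 h2
  refine ⟨SqP P, dfS_of_dfK hdf, sqP_zero P, sqP_neg_one P hs, fun x hx y hy => sqP_mul P hx hy,
    fun x hx => sqP_inv P hx, fun x hx => sqP_sq P hx,
    fun x h hx => sqP_near_one P hult h2 ⟨x, h⟩ hx,
    fun x hx y hy => sqP_add P hult h2 hs hr hx hy, ?_⟩
  by_cases hcon : ∃ c : K, c ≠ 0 ∧ c ∉ SqP P ∧ -c ∉ SqP P
  · exact Or.inl hcon
  push Not at hcon
  right
  have hcon' : ∀ c : K, c ≠ 0 → c ∈ SqP P ∨ -c ∈ SqP P := fun c hc => by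
    by_cases h : c ∈ SqP P
    · exact Or.inl h
    · exact Or.inr (hcon c hc h)
  have h1 : (1 : K) ∈ SqP P := by
    have := sqP_sq P (one_ne_zero (α := K))
    rwa [one_pow] at this
  let C : RingCone K :=
    { carrier := {x | x = 0 ∨ x ∈ SqP P}
      mul_mem' := fun {a b} ha hb => by
        rcases ha with rfl | ha
        · left; exact zero_mul _
        · rcases hb with rfl | hb
          · left; exact mul_zero _
          · right; exact sqP_mul P ha hb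
      one_mem' := Or.inr h1
      add_mem' := fun {a b} ha hb => by
        rcases ha with rfl | ha
        · rw [zero_add]; exact hb
        · rcases hb with rfl | hb
          · rw [add_zero]; exact Or.inr ha
          · right; exact sqP_add P hult h2 hs hr ha hb
      zero_mem' := Or.inl rfl
      eq_zero_of_mem_of_neg_mem' := fun {a} ha ha' => by
        rcases ha with ha | ha
        · exact ha
        · rcases ha' with ha' | ha'
          · exact neg_eq_zero.1 ha'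
          · exfalso
            have h3 := sqP_mul P ha' (sqP_inv P ha)
            rw [neg_mul, mul_inv_cancel₀ (sqP_ne_zero P ha)] at h3
            exact sqP_neg_one P hs h3 }
  have hCmem : ∀ x : K, x ∈ C ↔ (x = 0 ∨ x ∈ SqP P) := fun x => Iff.rfl
  have hC : ∀ x, x ∈ C ∨ -x ∈ C := by
    intro x
    by_cases hx : x = 0
    · left; rw [hCmem]; exact Or.inl hx
    · rcases hcon' x hx with h | h
      · left; rw [hCmem]; exact Or.inr h
      · right; rw [hCmem]; exact Or.inr h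
  let PO : PartialOrder K := .mkOfAddGroupCone C
  have hord : IsOrderedRing K := IsOrderedRing.mkOfCone C
  have hle : ∀ x y : K, x ≤ y ↔ y - x ∈ C := fun x y => Iff.rfl
  let LO : LinearOrder K :=
    { PO with
      le_total := fun a b => by
        rcases hC (b - a) with h1 | h1
        · exact Or.inl h1
        · right
          rw [hle]
          rwa [neg_sub] at h1
      toDecidableLE := Classical.decRel _ }
  have hle' : ∀ x y : K, LO.le x y ↔ (y - x = 0 ∨ y - x ∈ SqP P) := fun x y => Iff.rfl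
  have hsr : IsStrictOrderedRing K := @IsOrderedRing.toIsStrictOrderedRing K _ PO hord _ _
  have hpos : ∀ x : K, x ∈ SqP P ↔ LO.lt 0 x := by
    intro x
    rw [@lt_iff_le_and_ne K PO 0 x]
    constructor
    · intro hx
      exact ⟨(hle' 0 x).2 (Or.inr (by rwa [sub_zero])), (sqP_ne_zero P hx).symm⟩
    · rintro ⟨h3, h4⟩
      have h5 := (hle' 0 x).1 h3
      rw [sub_zero] at h5
      exact h5.resolve_left h4.symm
  refine ⟨LO, hsr, hpos, ?_, ?_⟩
  · apply dfS_of_dfK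
    have h3 : DfK {u : Fin 1 → K | u 0 = 0 ∨ u 0 ∈ SqP P} :=
      dfK_or (dfk_eq (Tm.var _) (Tm.const 0)) hdf
    have e : {u : Fin 1 → K | u 0 ∈ {x : K | LO.le 0 x}} = {u : Fin 1 → K | u 0 = 0 ∨ u 0 ∈ SqP P} := by
      ext u
      show LO.le 0 (u 0) ↔ _
      rw [hle', sub_zero]
      rfl
    rw [e]
    exact h3
  · intro x y hx hxy hy
    by_contra hx1
    have hxS : x ∈ SqP P := by
      have h5 := (hle' 0 x).1 hx
      rw [sub_zero] at h5
      refine h5.resolve_left ?_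
      rintro rfl
      apply hx1
      refine ⟨P.O.zero_mem, ?_⟩
      have : (⟨0, P.O.zero_mem⟩ : P.O) = 0 := rfl
      rw [this, map_zero, norm_zero]
      exact zero_le_one
    have h3 := sqP_sub P hult h2 hxS (div_small P hy hx1)
    rcases (hle' x y).1 hxy with h4 | h4
    · rw [← neg_sub, h4, neg_zero] at h3
      exact sqP_zero P h3
    · have h5 := sqP_add P hult h2 hs hr h3 h4
      have h6 : x - y + (y - x) = 0 := by ring
      rw [h6] at h5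
      exact sqP_zero P h5

end

end Pool.Agent.T9h43.TV
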