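import Pool.Agent.T9h43.MC.Hens

set_option autoImplicit false

/-! Roots of elements near one, and extensions with elements that are not `q`-th powers. -/

namespace Pool.Agent.T9h43.TV

open Pool.Agent.T9h43.MC

section hensel

variable {E : Type*} [NormedField E] [IsUltrametricDist E] [CompleteSpace E]

/-- Hensel's lemma for `q`-th roots near one. -/
theorem root_near_one {q : ℕ} (hq : ‖(q : E)‖ = 1) (x : E) (hx : ‖x‖ < 1) :
    ∃ c : E, c ^ q = 1 + x ∧ ‖c - 1‖ < 1 := by
  have hq0 : (q : E) ≠ 0 := by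
    intro h
    rw [h, norm_zero] at hq
    exact zero_ne_one hq
  set r : ℝ := ‖x‖ with hr
  have hr0 : 0 ≤ r := norm_nonneg _
  -- powers of elements near one
  have hpow : ∀ (a : E), ‖a - 1‖ ≤ r → ∀ n : ℕ, ‖a ^ n - 1‖ ≤ r := by
    intro a ha n
    have ha1 : ‖a‖ ≤ 1 := by
      have h1 : a = 1 + (a - 1) := by ring
      rw [h1]
      exact (IsUltrametricDist.norm_add_le_max _ _).trans (max_le norm_one.le (ha.trans hx.le))
    induction n with
    | zero => simpa using hr0
    | succ n ih =>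
      have h1 : a ^ (n + 1) - 1 = (a ^ n - 1) * a + (a - 1) := by ring
      rw [h1]
      refine (IsUltrametricDist.norm_add_le_max _ _).trans (max_le ?_ ha)
      rw [norm_mul]
      calc ‖a ^ n - 1‖ * ‖a‖ ≤ r * 1 := mul_le_mul ih ha1 (norm_nonneg _) hr0
        _ = r := mul_one r
  have key : ∀ h h' : E, ‖h‖ ≤ r → ‖h'‖ ≤ r →
      ‖(h - ((1 + h) ^ q - 1 - x) / q) - (h' - ((1 + h') ^ q - 1 - x) / q)‖ ≤ r * ‖h - h'‖ := by
    intro h h' hh hh'
    have h1 : (1 + h) ^ q - (1 + h') ^ q =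
        (∑ i ∈ Finset.range q, (1 + h) ^ i * (1 + h') ^ (q - 1 - i)) * (h - h') := by
      rw [← (Commute.all (1 + h) (1 + h')).geom_sum₂_mul q]
      ring
    have h2 : (h - ((1 + h) ^ q - 1 - x) / q) - (h' - ((1 + h') ^ q - 1 - x) / q) =
        ((q - ∑ i ∈ Finset.range q, (1 + h) ^ i * (1 + h') ^ (q - 1 - i)) / q) * (h - h') := by
      have h3 : (h - ((1 + h) ^ q - 1 - x) / q) - (h' - ((1 + h') ^ q - 1 - x) / q) =
          (h - h') - ((1 + h) ^ q - (1 + h') ^ q) / q := by ring
      rw [h3, h1]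
      field_simp
    rw [h2, norm_mul, norm_div, hq, div_one]
    refine mul_le_mul_of_nonneg_right ?_ (norm_nonneg _)
    have h4 : (q : E) - ∑ i ∈ Finset.range q, (1 + h) ^ i * (1 + h') ^ (q - 1 - i) =
        ∑ i ∈ Finset.range q, (1 - (1 + h) ^ i * (1 + h') ^ (q - 1 - i)) := by
      rw [Finset.sum_sub_distrib]
      simp
    rw [h4]
    refine norm_sum_le' _ _ _ hr0 fun i _ => ?_
    have h5 : 1 - (1 + h) ^ i * (1 + h') ^ (q - 1 - i) =
        -(((1 + h) ^ i - 1) * (1 + h') ^ (q - 1 - i)) - ((1 + h') ^ (q - 1 - i) - 1) := by ring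
    have hh1 : ‖(1 + h) - 1‖ ≤ r := by rwa [add_sub_cancel_left]
    have hh2 : ‖(1 + h') - 1‖ ≤ r := by rwa [add_sub_cancel_left]
    have h6 : ‖(1 + h') ^ (q - 1 - i)‖ ≤ 1 := by
      have h7 : (1 + h') ^ (q - 1 - i) = 1 + ((1 + h') ^ (q - 1 - i) - 1) := by ring
      rw [h7]
      exact (IsUltrametricDist.norm_add_le_max _ _).trans
        (max_le norm_one.le ((hpow _ hh2 _).trans hx.le))
    rw [h5]
    refine (norm_sub_le_max' _ _).trans (max_le ?_ (hpow _ hh2 _))
    rw [norm_neg, norm_mul]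
    calc ‖(1 + h) ^ i - 1‖ * ‖(1 + h') ^ (q - 1 - i)‖ ≤ r * 1 :=
          mul_le_mul (hpow _ hh1 _) h6 (norm_nonneg _) hr0
      _ = r := mul_one r
  obtain ⟨h, hh, hfix⟩ := fix (fun h => h - ((1 + h) ^ q - 1 - x) / q) r r hr0 hx hr0 (by
    intro h hh
    have h3 := key h 0 hh (by rw [norm_zero]; exact hr0)
    show ‖h - ((1 + h) ^ q - 1 - x) / q‖ ≤ r
    have e : h - ((1 + h) ^ q - 1 - x) / q =
        ((h - ((1 + h) ^ q - 1 - x) / q) - (0 - ((1 + 0) ^ q - 1 - x) / q)) + x / q := by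
      rw [add_zero, one_pow]
      ring
    rw [e]
    refine (IsUltrametricDist.norm_add_le_max _ _).trans (max_le (h3.trans ?_) ?_)
    · rw [sub_zero]
      calc r * ‖h‖ ≤ 1 * r := mul_le_mul hx.le hh (norm_nonneg _) zero_le_one
        _ = r := one_mul r
    · rw [norm_div, hq, div_one]) key
  refine ⟨1 + h, ?_, by rw [add_sub_cancel_left]; exact hh.trans_lt hx⟩
  have h1 : ((1 + h) ^ q - 1 - x) / q = 0 := by
    have h2 : h - ((1 + h) ^ q - 1 - x) / q = h := hfix
    linear_combination -h2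
  rw [div_eq_zero_iff] at h1
  have h3 := h1.resolve_right hq0
  linear_combination h3

end hensel

open IntermediateField Module

theorem exists_not_pow_aux (F : Type) [Field F] {q : ℕ} (hq : q.Prime) (hqF : (q : F) ≠ 0)
    (M : Type) [Field M] [Algebra F M] [FiniteDimensional F M] [Algebra.IsSeparable F M]
    (hdvd : q ∣ finrank F M) (C : Type) [Field C] [Algebra F C] [IsSepClosed C]
    [Algebra.IsSeparable F C] [Normal F C] :
    ∃ (E : Type) (_ : Field E) (_ : Algebra F E) (_ : FiniteDimensional F E)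
      (_ : Algebra.IsSeparable F E) (c : E), ∀ y : E, y ^ q ≠ c := by
  classical
  have hpf : Fact q.Prime := ⟨hq⟩
  have : NeZero ((q : ℕ) : C) := ⟨by
    rw [← map_natCast (algebraMap F C)]
    exact (map_ne_zero _).2 hqF⟩
  have : NeZero ((q : ℕ) : F) := ⟨hqF⟩
  obtain ⟨ζ, hζ⟩ : ∃ ζ : C, IsPrimitiveRoot ζ q := HasEnoughRootsOfUnity.exists_primitiveRoot C q
  let φ : M →ₐ[F] C := IsSepClosed.lift
  let S : IntermediateField F C := φ.fieldRange ⊔ F⟮ζ⟯
  have hfζ : FiniteDimensional F F⟮ζ⟯ :=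
    adjoin.finiteDimensional (Algebra.IsIntegral.isIntegral ζ)
  have hfφ : FiniteDimensional F φ.fieldRange :=
    (AlgEquiv.ofInjectiveField φ).toLinearEquiv.finiteDimensional
  have hfS : FiniteDimensional F S := IntermediateField.finiteDimensional_sup _ _
  let N : IntermediateField F C := normalClosure F S C
  have hfN : FiniteDimensional F N := inferInstance
  have hnN : Normal F N := inferInstance
  have hsN : Algebra.IsSeparable F N := Algebra.isSeparable_tower_bot_of_isSeparable F N C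
  have hgN : IsGalois F N := ⟨⟩
  have hSN : S ≤ N := le_normalClosure S
  have hζN : ζ ∈ N := hSN ((le_sup_right : F⟮ζ⟯ ≤ S) (mem_adjoin_simple_self F ζ))
  let ζN : N := ⟨ζ, hζN⟩
  have hζN' : IsPrimitiveRoot ζN q :=
    IsPrimitiveRoot.of_map_of_injective (f := algebraMap N C) hζ (algebraMap N C).injective
  -- divisibility
  have hM : finrank F M = finrank F φ.fieldRange :=
    (AlgEquiv.ofInjectiveField φ).toLinearEquiv.finrank_eq
  have hdN : q ∣ finrank F N := by
    rw [hM] at hdvd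
    refine hdvd.trans ?_
    rw [← finrank_bot_mul_relfinrank (show φ.fieldRange ≤ N from le_sup_left.trans hSN)]
    exact dvd_mul_right _ _
  have hint : IsIntegral F ζN := Algebra.IsIntegral.isIntegral ζN
  have hdeg : finrank F F⟮ζN⟯ ≤ q - 1 := by
    rw [adjoin.finrank hint]
    have hdv : minpoly F ζN ∣ Polynomial.cyclotomic q F := by
      refine minpoly.dvd F ζN ?_
      have : NeZero ((q : ℕ) : N) := ⟨by
        rw [← map_natCast (algebraMap F N)]
        exact (map_ne_zero _).2 hqF⟩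
      rw [Polynomial.aeval_def, Polynomial.eval₂_eq_eval_map, Polynomial.map_cyclotomic,
        ← Polynomial.IsRoot.def, Polynomial.isRoot_cyclotomic_iff]
      exact hζN'
    have := Polynomial.natDegree_le_of_dvd hdv (Polynomial.cyclotomic_ne_zero q F)
    rwa [Polynomial.natDegree_cyclotomic, Nat.totient_prime hq] at this
  have hdz : q ∣ finrank F⟮ζN⟯ N := by
    rw [← finrank_mul_finrank F F⟮ζN⟯ N] at hdN
    rcases hq.dvd_mul.1 hdN with h1 | h1
    · exfalso
      have := Nat.le_of_dvd finrank_pos h1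
      have := hq.pos
      omega
    · exact h1
  rw [← IsGalois.card_aut_eq_finrank] at hdz
  obtain ⟨g, hg⟩ := exists_prime_orderOf_dvd_card' q hdz
  -- the fixed field
  let g' : N ≃ₐ[F] N := g.restrictScalars F
  have hg'apply : ∀ x, g' x = g x := fun _ => rfl
  have hg'1 : orderOf g' = q := by
    rw [← hg]
    have hinj : Function.Injective (AlgEquiv.restrictScalarsHom F :
        (N ≃ₐ[F⟮ζN⟯] N) →* (N ≃ₐ[F] N)) := AlgEquiv.restrictScalars_injective F
    exact orderOf_injective _ hinj g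
  let E : IntermediateField F N := fixedField (Subgroup.zpowers g')
  have hEζ : ζN ∈ E := by
    rw [mem_fixedField_iff]
    intro f hf
    obtain ⟨k, rfl⟩ := Subgroup.mem_zpowers_iff.1 hf
    have h1 : ∀ x ∈ F⟮ζN⟯, g' x = x := fun x hx => g.commutes ⟨x, hx⟩
    have h2 : g' ζN = ζN := h1 _ (mem_adjoin_simple_self F ζN)
    have h3 : g' ∈ MulAction.stabilizer (N ≃ₐ[F] N) ζN := h2
    exact (MulAction.stabilizer (N ≃ₐ[F] N) ζN).zpow_mem h3 k
  have hfin : finrank E N = q := by
    rw [finrank_fixedField_eq_card, Nat.card_zpowers, hg'1]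
  have hgal : IsGalois E N := inferInstance
  have hcard : Nat.card Gal(N/E) = q := by
    rw [IsGalois.card_aut_eq_finrank, hfin]
  have hcyc : IsCyclic Gal(N/E) := isCyclic_of_prime_card hcard
  let ζE : E := ⟨ζN, hEζ⟩
  have hζE : IsPrimitiveRoot ζE q :=
    IsPrimitiveRoot.of_map_of_injective (f := algebraMap E N) hζN' (algebraMap E N).injective
  obtain ⟨α, ⟨b, hb⟩, hα⟩ := exists_root_adjoin_eq_top_of_isCyclic E N (by
    rw [hfin]
    exact ⟨ζE, (mem_primitiveRoots hq.pos).2 hζE⟩)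
  rw [hfin] at hb
  have hsE : Algebra.IsSeparable F E := Algebra.isSeparable_tower_bot_of_isSeparable F E N
  refine ⟨E, inferInstance, inferInstance, inferInstance, hsE, b, ?_⟩
  intro c hc
  have hcα : (algebraMap E N c) ^ q = α ^ q := by rw [← map_pow, hc, hb]
  have hαE : ∃ a : E, algebraMap E N a = α := by
    by_cases hc0 : algebraMap E N c = 0
    · refine ⟨0, ?_⟩
      rw [hc0, zero_pow hq.ne_zero] at hcα
      rw [map_zero]
      exact (pow_eq_zero_iff hq.ne_zero).1 hcα.symm |>.symm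
    · have h1 : (α / algebraMap E N c) ^ q = 1 := by
        rw [div_pow, ← hcα, div_self (pow_ne_zero _ hc0)]
      obtain ⟨i, -, hi⟩ := hζN'.eq_pow_of_pow_eq_one h1
      refine ⟨ζE ^ i * c, ?_⟩
      rw [map_mul, map_pow]
      have h2 : algebraMap E N ζE = ζN := rfl
      rw [h2, hi, div_mul_cancel₀ _ hc0]
  obtain ⟨a, ha⟩ := hαE
  have hbot : E⟮α⟯ = ⊥ := by
    rw [adjoin_simple_eq_bot_iff, ← ha]
    exact IntermediateField.algebraMap_mem _ a
  rw [hbot] at hα
  have h5 : finrank E N = 1 := by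
    rw [← finrank_top' (F := E) (E := N), ← hα]
    exact IntermediateField.finrank_bot
  rw [hfin] at h5
  exact hq.ne_one h5

/-- Sylow and Kummer theory. -/
theorem exists_not_pow (F : Type) [Field F] {q : ℕ} (hq : q.Prime) (hqF : (q : F) ≠ 0)
    (M : Type) [Field M] [Algebra F M] [FiniteDimensional F M] [Algebra.IsSeparable F M]
    (hdvd : q ∣ finrank F M) :
    ∃ (E : Type) (_ : Field E) (_ : Algebra F E) (_ : FiniteDimensional F E)
      (_ : Algebra.IsSeparable F E) (c : E), ∀ y : E, y ^ q ≠ c :=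
  exists_not_pow_aux F hq hqF M hdvd (SeparableClosure F)

end Pool.Agent.T9h43.TV
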