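import Pool.Agent.T9h43.TV.Nip
import Pool.Agent.T9h43.NF.Defin
import Pool.Agent.N616.NH.RX2
import Pool.Agent.N616.NV.PO
import Pool.Agent.Results.MP_3554b5_lc.NonTameDefinable

set_option autoImplicit false

/-! The ring of a place of dimension greater than one is definable, or the value group is
divisible. -/

namespace Pool.Agent.T9h43.TV

open Polynomial Topology Filter FirstOrder Pool.Agent.W882.Nip3 Pool.Agent.N616.NH
  Pool.Agent.N616.NV Pool.Agent.N616.NV.PB_ Pool.Agent.T9h43.MC Pool.Agent.T9h43.NF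
  Pool.Agent.N616.NH.DFB_ Pool.Agent.N616.NH.DFA_ Pool.Agent.N616.NV.VD_

section group

variable {F : Type} [NontriviallyNormedField F]

theorem not_pow_unif {ℓ : ℕ} (hℓ : 2 ≤ ℓ) {π : F} (h0 : π ≠ 0) (h1 : ‖π‖ < 1)
    (h : ∀ x : F, ‖x‖ < 1 → ‖x‖ ≤ ‖π‖) (b : F) : ‖b‖ ^ ℓ ≠ ‖π‖ := by
  intro hb
  have h3 : ‖b‖ < 1 := by
    by_contra h4
    rw [not_lt] at h4
    have := one_le_pow₀ h4 (n := ℓ)
    rw [hb] at this
    exact absurd h1 (not_lt.2 this)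
  have h4 := h b h3
  have hπp : 0 < ‖π‖ := norm_pos_iff.2 h0
  have h5 : ‖b‖ ^ ℓ ≤ ‖π‖ ^ ℓ := pow_le_pow_left₀ (norm_nonneg _) h4 ℓ
  have h6 : ‖π‖ ^ ℓ < ‖π‖ := pow_lt_self_of_lt_one₀ hπp h1 (by omega)
  rw [hb] at h5
  exact absurd (h5.trans_lt h6) (lt_irrefl _)

theorem dense_norms (hu : ¬ ∃ π : F, π ≠ 0 ∧ ‖π‖ < 1 ∧ ∀ x : F, ‖x‖ < 1 → ‖x‖ ≤ ‖π‖) {r s : ℝ}
    (hr : 0 < r) (hrs : r < s) : ∃ y : F, r < ‖y‖ ∧ ‖y‖ < s := by
  have hs : 0 < s := hr.trans hrs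
  have hc0 : 0 < r / s := div_pos hr hs
  have hc1 : r / s < 1 := (div_lt_one hs).2 hrs
  obtain ⟨t, ht1, ht⟩ : ∃ t : F, ‖t‖ < 1 ∧ r / s < ‖t‖ := by
    by_contra hcon
    push Not at hcon
    exact hu (exists_unif hc0 hc1 (N := 1) fun t ht => by rw [pow_one]; exact hcon t ht)
  have ht0 : 0 < ‖t‖ := hc0.trans ht
  obtain ⟨n, hn1, hn2⟩ := exists_mem_Ioc_zpow hs ((one_lt_inv₀ ht0).2 ht1)
  refine ⟨(t⁻¹) ^ n, ?_, ?_⟩
  · rw [norm_zpow, norm_inv]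
    rw [zpow_add_one₀ (inv_ne_zero ht0.ne')] at hn2
    rw [div_lt_iff₀ hs] at ht
    have h1 : ‖t‖ * s ≤ (‖t‖⁻¹) ^ n := by
      calc ‖t‖ * s ≤ ‖t‖ * ((‖t‖⁻¹) ^ n * ‖t‖⁻¹) := mul_le_mul_of_nonneg_left hn2 ht0.le
        _ = (‖t‖⁻¹) ^ n := by field_simp
    exact ht.trans_le h1
  · rw [norm_zpow, norm_inv]
    exact hn1

theorem exists_coset {ℓ : ℕ} (hℓ : 2 ≤ ℓ) (a : F) (ha : ∀ b : F, ‖b‖ ^ ℓ ≠ ‖a‖) :
    ∃ t : F, (∀ b : F, ‖b‖ ^ ℓ ≠ ‖t‖) ∧ ∀ η : ℝ, (∃ f : F, ‖f‖ = η) → η < 1 →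
      ∃ y : F, y ≠ 0 ∧ η ≤ ‖t‖ * ‖y‖ ^ ℓ ∧ ‖t‖ * ‖y‖ ^ ℓ < 1 := by
  by_cases hu : ∃ π : F, π ≠ 0 ∧ ‖π‖ < 1 ∧ ∀ x : F, ‖x‖ < 1 → ‖x‖ ≤ ‖π‖
  · obtain ⟨π, h0, h1, h2⟩ := hu
    refine ⟨π, not_pow_unif hℓ h0 h1 h2, ?_⟩
    rintro η ⟨f, rfl⟩ hf
    refine ⟨1, one_ne_zero, ?_, ?_⟩
    · rw [norm_one, one_pow, mul_one]
      exact h2 f hf
    · rw [norm_one, one_pow, mul_one]
      exact h1
  · refine ⟨a, ha, fun η _ hη => ?_⟩
    have ha0 : 0 < ‖a‖ := by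
      rw [norm_pos_iff]
      rintro rfl
      exact ha 0 (by rw [norm_zero, zero_pow (by omega)])
    have hη' : max η (1 / 2) < 1 := max_lt hη (by norm_num)
    have hη0 : 0 < max η (1 / 2) := lt_max_of_lt_right (by norm_num)
    have hℓ0 : (ℓ : ℝ) ≠ 0 := by
      have : ℓ ≠ 0 := by omega
      exact_mod_cast this
    have hr0 : 0 < (max η (1 / 2) / ‖a‖) ^ ((ℓ : ℝ)⁻¹) :=
      Real.rpow_pos_of_pos (div_pos hη0 ha0) _
    have hrs : (max η (1 / 2) / ‖a‖) ^ ((ℓ : ℝ)⁻¹) < (1 / ‖a‖) ^ ((ℓ : ℝ)⁻¹) := by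
      refine Real.rpow_lt_rpow (div_pos hη0 ha0).le ?_ (by positivity)
      exact div_lt_div_of_pos_right hη' ha0
    obtain ⟨y, hy1, hy2⟩ := dense_norms hu hr0 hrs
    have hyp : 0 < ‖y‖ := hr0.trans hy1
    have e1 : ∀ z : ℝ, 0 ≤ z → (z ^ ((ℓ : ℝ)⁻¹)) ^ ℓ = z := fun z hz =>
      Real.rpow_inv_natCast_pow hz (by omega)
    refine ⟨y, norm_pos_iff.1 hyp, ?_, ?_⟩
    · have h1 := pow_lt_pow_left₀ hy1 hr0.le (n := ℓ) (by omega)
      rw [e1 _ (div_pos hη0 ha0).le, div_lt_iff₀ ha0] at h1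
      calc η ≤ max η (1 / 2) := le_max_left _ _
        _ ≤ ‖a‖ * ‖y‖ ^ ℓ := by rw [mul_comm]; exact h1.le
    · have h1 := pow_lt_pow_left₀ hy2 hyp.le (n := ℓ) (by omega)
      rw [e1 _ (by positivity), lt_div_iff₀ ha0] at h1
      rw [mul_comm]
      exact h1

end group

section place

variable {K : Type} [Field K] (P : Place K)

theorem inv_elt (x : P.O) (hx : P.res x ≠ 0) : ∃ y : P.O, x * y = 1 ∧ (y : K) = (x : K)⁻¹ := by
  obtain ⟨u, hu⟩ := (P.isUnit_of_res_ne_zero x hx).exists_right_inv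
  refine ⟨u, hu, ?_⟩
  apply eq_inv_of_mul_eq_one_right
  exact congrArg Subtype.val hu

theorem res_mul_eq_one {x y : P.O} (h : x * y = 1) : ‖P.res x‖ * ‖P.res y‖ = 1 := by
  rw [← norm_mul, ← map_mul, h, map_one, norm_one]

theorem mem_of_pow {n : ℕ} (hn : n ≠ 0) {y : K} (h : y ^ n ∈ P.O) : y ∈ P.O := by
  by_contra hy
  have hy0 : y ≠ 0 := by
    rintro rfl
    exact hy P.O.zero_mem
  have h1 : 1 < P.O.valuation y := by
    rw [← not_le, P.O.valuation_le_one_iff]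
    exact hy
  have h2 : P.O.valuation (y ^ n) ≤ 1 := (P.O.valuation_le_one_iff _).2 h
  rw [map_pow] at h2
  exact absurd h2 (not_le.2 (one_lt_pow₀ h1 hn))

variable {O : ValuationSubring K} (hO : IsRingOf P O)

include hO in
theorem mem_O_iff (x : K) : x ∈ O ↔ ∃ x' : P.O, (x' : K) = x ∧ ‖P.res x'‖ ≤ 1 := by
  rw [hO x]
  constructor
  · rintro ⟨h, h1⟩
    exact ⟨⟨x, h⟩, rfl, h1⟩
  · rintro ⟨x', rfl, h1⟩
    exact ⟨x'.2, h1⟩

include hO in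
theorem val_lt_iff (x : K) : O.valuation x < 1 ↔ ∃ x' : P.O, (x' : K) = x ∧ ‖P.res x'‖ < 1 := by
  constructor
  · intro h
    obtain ⟨x', hx', h1⟩ := (mem_O_iff P hO x).1 ((O.valuation_le_one_iff x).1 h.le)
    refine ⟨x', hx', lt_of_le_of_ne h1 fun h2 => ?_⟩
    obtain ⟨y, hxy, -⟩ := inv_elt P x' (by
      intro h0
      rw [h0, norm_zero] at h2
      exact zero_ne_one h2)
    have h3 := res_mul_eq_one P hxy
    rw [h2, one_mul] at h3
    have h4 : (y : K) ∈ O := (mem_O_iff P hO _).2 ⟨y, rfl, h3.le⟩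
    have h5 : x * (y : K) = 1 := by
      rw [← hx']
      exact congrArg Subtype.val hxy
    have h6 : O.valuation x * O.valuation (y : K) = 1 := by rw [← map_mul, h5, map_one]
    have h7 : O.valuation x * O.valuation (y : K) < 1 :=
      mul_lt_one_of_lt_of_le h ((O.valuation_le_one_iff _).2 h4)
    rw [h6] at h7
    exact lt_irrefl _ h7
  · rintro ⟨x', rfl, h1⟩
    rw [lt_iff_le_and_ne]
    refine ⟨(O.valuation_le_one_iff _).2 ((mem_O_iff P hO _).2 ⟨x', rfl, h1.le⟩), fun h => ?_⟩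
    have h0 : (x' : K) ≠ 0 := by
      intro h0
      rw [h0, map_zero] at h
      exact zero_ne_one h
    have h2 : ((x' : K))⁻¹ ∈ O := by
      rw [← O.valuation_le_one_iff, map_inv₀, h, inv_one]
    obtain ⟨y, hy, hy1⟩ := (mem_O_iff P hO _).1 h2
    have h3 : x' * y = 1 := by
      refine Subtype.ext ?_
      show (x' : K) * (y : K) = 1
      rw [hy, mul_inv_cancel₀ h0]
    have h4 := res_mul_eq_one P h3
    nlinarith [norm_nonneg (P.res y), norm_nonneg (P.res x')]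

include hO in
theorem val_le_of (e x : P.O) (hx : P.res x ≠ 0) (h : ‖P.res e‖ ≤ ‖P.res x‖) :
    O.valuation (e : K) ≤ O.valuation (x : K) := by
  obtain ⟨y, hxy, hy⟩ := inv_elt P x hx
  have hx0 : (x : K) ≠ 0 := by
    intro h0
    apply hx
    have : x = 0 := Subtype.ext h0
    rw [this, map_zero]
  have h1 := res_mul_eq_one P hxy
  have hxp : 0 < ‖P.res x‖ := norm_pos_iff.2 hx
  have h2 : ((e * y : P.O) : K) ∈ O := by
    refine (mem_O_iff P hO _).2 ⟨e * y, rfl, ?_⟩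
    rw [map_mul, norm_mul]
    calc ‖P.res e‖ * ‖P.res y‖ ≤ ‖P.res x‖ * ‖P.res y‖ :=
          mul_le_mul_of_nonneg_right h (norm_nonneg _)
      _ = 1 := h1
  have h3 : (e : K) = ((e * y : P.O) : K) * (x : K) := by
    show (e : K) = (e : K) * (y : K) * (x : K)
    rw [hy, inv_mul_cancel_right₀ hx0]
  rw [h3, map_mul]
  exact mul_le_of_le_one_left' ((O.valuation_le_one_iff _).2 h2)

/-- The residue field has an extension of degree `ℓ`. -/
theorem res_ext (hult : ∀ a b : P.F, ‖a + b‖ ≤ max ‖a‖ ‖b‖) (hO : IsRingOf P O) {ℓ : ℕ}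
    (hℓ : ℓ.Prime) (hℓn : ‖(ℓ : P.F)‖ = 1) (u : P.F) (hu : ‖u‖ = 1)
    (hw : ∀ w : P.F, ¬ ‖u - w ^ ℓ‖ < 1) : ResExt ℓ O := by
  have : IsUltrametricDist P.F :=
    IsUltrametricDist.isUltrametricDist_of_forall_norm_add_le_max_norm hult
  obtain ⟨x0, hx0⟩ := pick P.denseRange (y := u) (Q := fun y => ‖u - y‖ < 1) (by
    have h1 : Continuous fun y : P.F => ‖u - y‖ := by fun_prop
    exact h1.continuousAt.eventually_lt continuousAt_const (by simp))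
  have hx1 : ‖P.res x0‖ = 1 := by
    rw [← hu]
    exact norm_eq_of_sub_lt (by rw [hu]; exact hx0)
  have hxO : (x0 : K) ∈ O := (mem_O_iff P hO _).2 ⟨x0, rfl, hx1.le⟩
  refine RX2_.ext_kummer hℓ ?_ (IsLocalRing.residue O ⟨x0, hxO⟩) ?_
  · intro h
    have h1 : IsLocalRing.residue O (ℓ : O) = IsLocalRing.residue O 0 := by
      rw [map_natCast, map_zero, h]
    rw [RX2_.res_eq_iff, val_lt_iff P hO] at h1
    obtain ⟨x', hx', h2⟩ := h1
    have h3 : x' = (ℓ : P.O) := by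
      refine Subtype.ext ?_
      rw [hx']
      simp
    rw [h3, map_natCast, hℓn] at h2
    exact lt_irrefl _ h2
  · intro c hc
    obtain ⟨y, rfl⟩ := IsLocalRing.residue_surjective c
    rw [← map_pow, RX2_.res_eq_iff, val_lt_iff P hO] at hc
    obtain ⟨x', hx', h2⟩ := hc
    obtain ⟨y', hy', -⟩ := (mem_O_iff P hO _).1 y.2
    have h3 : x' = y' ^ ℓ - x0 := by
      refine Subtype.ext ?_
      rw [hx']
      push_cast
      rw [hy']
    rw [h3, map_sub, map_pow] at h2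
    apply hw (P.res y')
    have h4 : u - P.res y' ^ ℓ = (u - P.res x0) - (P.res y' ^ ℓ - P.res x0) := by ring
    rw [h4]
    exact (norm_sub_le_max' _ _).trans_lt (max_lt hx0 h2)

/-- Non-tameness of the first type. -/
theorem nt1_of (hult : ∀ a b : P.F, ‖a + b‖ ≤ max ‖a‖ ‖b‖) (hO : IsRingOf P O) {ℓ : ℕ}
    (hℓ : ℓ.Prime) (a : P.F) (ha : ∀ b : P.F, ‖b‖ ^ ℓ ≠ ‖a‖) (hres : ResExt ℓ O) :
    ∃ t : K, NT1 O ℓ t := by
  have : IsUltrametricDist P.F :=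
    IsUltrametricDist.isUltrametricDist_of_forall_norm_add_le_max_norm hult
  obtain ⟨t, ht, hsm⟩ := exists_coset hℓ.two_le a ha
  have ht0 : t ≠ 0 := by
    rintro rfl
    exact ht 0 (by rw [norm_zero, zero_pow hℓ.ne_zero])
  have appr : ∀ f : P.F, f ≠ 0 → ∃ x : P.O, ‖P.res x‖ = ‖f‖ := by
    intro f hf
    obtain ⟨x, hx⟩ := pick P.denseRange (y := f) (Q := fun y => ‖f - y‖ < ‖f‖) (by
      have h1 : Continuous fun y : P.F => ‖f - y‖ := by fun_prop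
      exact h1.continuousAt.eventually_lt continuousAt_const (by simpa using hf))
    exact ⟨x, norm_eq_of_sub_lt hx⟩
  obtain ⟨s, hs⟩ := appr t ht0
  have hs0 : P.res s ≠ 0 := by
    rw [← norm_ne_zero_iff, hs, norm_ne_zero_iff]
    exact ht0
  obtain ⟨s', hss', hs'⟩ := inv_elt P s hs0
  have hsK : (s : K) ≠ 0 := by
    intro h0
    apply hs0
    have : s = 0 := Subtype.ext h0
    rw [this, map_zero]
  refine ⟨s, hℓ.two_le, ?_, ?_, hres⟩
  · intro y hy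
    -- `s / y ^ ℓ` is a unit of `O`
    have hy0 : y ≠ 0 := by
      rintro rfl
      rw [map_zero, zero_pow hℓ.ne_zero] at hy
      exact hsK ((Valuation.zero_iff _).1 hy)
    have h1 : O.valuation (y ^ ℓ * (s : K)⁻¹) = 1 := by
      rw [map_mul, map_pow, map_inv₀, ← hy, mul_inv_cancel₀]
      exact (Valuation.ne_zero_iff _).2 hsK
    obtain ⟨x', hx', hx'1⟩ := (mem_O_iff P hO _).1 ((O.valuation_le_one_iff _).1 h1.le)
    have hx'2 : ‖P.res x'‖ = 1 := by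
      refine le_antisymm hx'1 (not_lt.1 fun h => ?_)
      have := (val_lt_iff P hO _).2 ⟨x', hx', h⟩
      rw [h1] at this
      exact lt_irrefl _ this
    have h2 : y ^ ℓ = ((x' * s : P.O) : K) := by
      show y ^ ℓ = (x' : K) * (s : K)
      rw [hx', inv_mul_cancel_right₀ hsK]
    have h3 : y ∈ P.O := mem_of_pow P hℓ.ne_zero (by rw [h2]; exact (x' * s).2)
    have h4 : (⟨y, h3⟩ : P.O) ^ ℓ = x' * s := Subtype.ext h2
    have h5 := congrArg (fun z => ‖P.res z‖) h4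
    simp only [map_pow, map_mul, norm_pow, norm_mul] at h5
    rw [hx'2, one_mul, hs] at h5
    exact ht _ h5
  · intro e he0 he
    obtain ⟨e', he', he1⟩ := (val_lt_iff P hO e).1 he
    obtain ⟨y, hy0, hy1, hy2⟩ := hsm ‖P.res e'‖ ⟨_, rfl⟩ he1
    obtain ⟨y', hy'⟩ := appr y hy0
    have h1 : ‖P.res (s * y' ^ ℓ)‖ = ‖t‖ * ‖y‖ ^ ℓ := by
      rw [map_mul, map_pow, norm_mul, norm_pow, hs, hy']
    have h2 : ((s * y' ^ ℓ : P.O) : K) = (s : K) * (y' : K) ^ ℓ := by push_cast; rfl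
    refine ⟨y', ?_, ?_⟩
    · rw [← h2, ← he']
      refine val_le_of P hO e' _ ?_ (by rw [h1]; exact hy1)
      rw [← norm_ne_zero_iff, h1]
      have : 0 < ‖t‖ * ‖y‖ ^ ℓ := mul_pos (norm_pos_iff.2 ht0) (pow_pos (norm_pos_iff.2 hy0) _)
      exact this.ne'
    · rw [← h2]
      exact (val_lt_iff P hO _).2 ⟨_, rfl, by rw [h1]; exact hy2⟩

end place

end Pool.Agent.T9h43.TV
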