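import Pool.Agent.T9h43.TV.Grp

set_option autoImplicit false

/-! The ring of a place is definable if the value group is not divisible by `ℓ` and all units are
`ℓ`-th powers. -/

namespace Pool.Agent.T9h43.TV

open Polynomial Topology Filter FirstOrder Pool.Agent.W882.Nip3 Pool.Agent.N616.NH
  Pool.Agent.N616.NV Pool.Agent.N616.NV.PB_ Pool.Agent.T9h43.MC Pool.Agent.T9h43.NF
  Pool.Agent.N616.NH.DFB_ Pool.Agent.N616.NH.DFA_ Pool.Agent.N616.NV.VD_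

section

variable {K : Type} [Field K] [FirstOrder.Ring.CompatibleRing K]

/-- The elements near an `ℓ`-th power. -/
def TS (U : Set K) (ℓ : ℕ) (c0 : K) : Set K := {z | ∃ y : K, c0⁻¹ * (z - y ^ ℓ) ∈ U}

/-- The elements `x` which are not near an `ℓ`-th power, such that `1 + x` is. -/
def A1 (U : Set K) (ℓ : ℕ) (c0 c2 : K) : Set K :=
  {x | x ∉ TS U ℓ c0 ∧ 1 + x ∈ TS U ℓ c0 ∧ c2⁻¹ * x ∈ U}

/-- The maximal ideal. -/
def MI (U : Set K) (ℓ : ℕ) (c0 c1 c2 : K) : Set K :=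
  {x | x ∈ A1 U ℓ c0 c2 ∨ (∃ y z, x = y * z ∧ y ∈ A1 U ℓ c0 c2 ∧ z ∈ A1 U ℓ c0 c2) ∨ c1⁻¹ * x ∈ U}

theorem dfK_TS {U : Set K} (hU : DfS U) (ℓ : ℕ) (c0 : K) {α : Type} {f : (α → K) → K}
    (hf : Tm f) : DfK {u : α → K | f u ∈ TS U ℓ c0} := by
  have h1 : DfK {u : α → K | ∃ y : Fin 1 → K, c0⁻¹ * (f u - y 0 ^ ℓ) ∈ U} := by
    apply dfK_ex 1 (Φ := fun (u : α → K) (y : Fin 1 → K) => c0⁻¹ * (f u - y 0 ^ ℓ) ∈ U)
    have hf' : Tm (fun w : α ⊕ Fin 1 → K => f (fun i => w (Sum.inl i))) := by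
      obtain ⟨q, σ, d, h'⟩ := hf
      refine ⟨q, σ.relabel (Sum.map Sum.inl id), d, fun u => ?_⟩
      rw [FirstOrder.Language.Term.realize_relabel]
      have e : (Sum.elim u d ∘ Sum.map Sum.inl id : α ⊕ Fin q → K) =
          Sum.elim (fun i => u (Sum.inl i)) d := by
        funext a
        rcases a with a | a <;> rfl
      rw [e, h']
    exact dfk_substU hU ((Tm.const _).mul (tm_sub hf' (tm_pow (Tm.var _) ℓ)))
  have e : {u : α → K | f u ∈ TS U ℓ c0} =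
      {u : α → K | ∃ y : Fin 1 → K, c0⁻¹ * (f u - y 0 ^ ℓ) ∈ U} := by
    ext u
    constructor
    · rintro ⟨y, hy⟩
      exact ⟨fun _ => y, hy⟩
    · rintro ⟨y, hy⟩
      exact ⟨y 0, hy⟩
  rw [e]
  exact h1

theorem dfK_A1 {U : Set K} (hU : DfS U) (ℓ : ℕ) (c0 c2 : K) {α : Type} {f : (α → K) → K}
    (hf : Tm f) : DfK {u : α → K | f u ∈ A1 U ℓ c0 c2} :=
  dfK_and (dfK_not (dfK_TS hU ℓ c0 hf)) (dfK_and (dfK_TS hU ℓ c0 ((Tm.const 1).add hf))
    (dfk_substU hU ((Tm.const _).mul hf)))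

theorem dfK_MI {U : Set K} (hU : DfS U) (ℓ : ℕ) (c0 c1 c2 : K) {α : Type} (i : α) :
    DfK {u : α → K | u i ∈ MI U ℓ c0 c1 c2} := by
  refine dfK_or (dfK_A1 hU ℓ c0 c2 (Tm.var i)) (dfK_or ?_
    (dfk_substU hU ((Tm.const _).mul (Tm.var i))))
  have h1 : DfK {u : α → K | ∃ y : Fin 2 → K, u i = y 0 * y 1 ∧ y 0 ∈ A1 U ℓ c0 c2 ∧
      y 1 ∈ A1 U ℓ c0 c2} := by
    apply dfK_ex 2 (Φ := fun (u : α → K) (y : Fin 2 → K) => u i = y 0 * y 1 ∧
      y 0 ∈ A1 U ℓ c0 c2 ∧ y 1 ∈ A1 U ℓ c0 c2)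
    exact dfK_and (dfk_eq (Tm.var _) ((Tm.var _).mul (Tm.var _)))
      (dfK_and (dfK_A1 hU ℓ c0 c2 (Tm.var _)) (dfK_A1 hU ℓ c0 c2 (Tm.var _)))
  have e : {u : α → K | ∃ y z, u i = y * z ∧ y ∈ A1 U ℓ c0 c2 ∧ z ∈ A1 U ℓ c0 c2} =
      {u : α → K | ∃ y : Fin 2 → K, u i = y 0 * y 1 ∧ y 0 ∈ A1 U ℓ c0 c2 ∧
      y 1 ∈ A1 U ℓ c0 c2} := by
    ext u
    constructor
    · rintro ⟨y, z, h⟩
      exact ⟨![y, z], h⟩
    · rintro ⟨y, h⟩
      exact ⟨y 0, y 1, h⟩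
  rw [e]
  exact h1

/-- A valuation ring with definable maximal ideal is definable. -/
theorem dfb_of_ideal {O : ValuationSubring K} {M : Set K} (hM : DfK {u : Fin 2 → K | u 1 ∈ M})
    (h : ∀ x : K, x ∈ M ↔ O.valuation x < 1) : Dfb O := by
  have h1 : DfK {u : Fin 1 → K | ∀ y : Fin 1 → K, u 0 * y 0 = 1 → ¬ y 0 ∈ M} := by
    apply dfK_forall 1 (Φ := fun (u : Fin 1 → K) (y : Fin 1 → K) => u 0 * y 0 = 1 → ¬ y 0 ∈ M)
    refine dfK_imp (dfk_eq ((Tm.var _).mul (Tm.var _)) (Tm.const 1)) (dfK_not ?_)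
    have h2 := dfK_pre (fun _ : Fin 2 => (Sum.inr 0 : Fin 1 ⊕ Fin 1)) hM
    exact h2
  obtain ⟨p, ψ, c, hc⟩ := h1
  refine ⟨p, ψ, c, fun x => ?_⟩
  rw [← hc fun _ => x]
  show x ∈ O ↔ ∀ y : Fin 1 → K, x * y 0 = 1 → ¬ y 0 ∈ M
  constructor
  · intro hx y hy hyM
    rw [h] at hyM
    have h2 : O.valuation x * O.valuation (y 0) = 1 := by rw [← map_mul, hy, map_one]
    have h3 : O.valuation x * O.valuation (y 0) < 1 := by
      rw [mul_comm]
      exact mul_lt_one_of_lt_of_le hyM ((O.valuation_le_one_iff x).2 hx)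
    rw [h2] at h3
    exact lt_irrefl _ h3
  · intro h2
    by_contra hx
    have hx0 : x ≠ 0 := by
      rintro rfl
      exact hx O.zero_mem
    apply h2 (fun _ => x⁻¹) (mul_inv_cancel₀ hx0)
    rw [h, map_inv₀]
    refine inv_lt_one_of_one_lt₀ ?_
    rw [← not_le, O.valuation_le_one_iff]
    exact hx

/-- Case A: all units are congruent to `ℓ`-th powers. -/
theorem dfb_of_powers (P : Place K) (hult : ∀ a b : P.F, ‖a + b‖ ≤ max ‖a‖ ‖b‖) (U : Set K)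
    (hU : DfS U) (ε : ℝ) (hε : 0 < ε)
    (hU1 : ∀ (x : K) (h : x ∈ P.O), ‖P.res ⟨x, h⟩‖ ≤ ε → x ∈ U)
    (hU2 : ∀ x ∈ U, ∃ h : x ∈ P.O, ‖P.res ⟨x, h⟩‖ ≤ 1 / ε) {O : ValuationSubring K}
    (hO : IsRingOf P O) {ℓ : ℕ} (hℓ : 2 ≤ ℓ) (hℓn : ‖(ℓ : P.F)‖ = 1)
    (hpow : ∀ u : P.F, ‖u‖ = 1 → ∃ w : P.F, ‖u - w ^ ℓ‖ < 1) (a : P.F)
    (ha : ∀ b : P.F, ‖b‖ ^ ℓ ≠ ‖a‖) : Dfb O := by
  have : IsUltrametricDist P.F :=
    IsUltrametricDist.isUltrametricDist_of_forall_norm_add_le_max_norm hult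
  have hℓ0 : ℓ ≠ 0 := by omega
  obtain ⟨t, ht, hsm⟩ := exists_coset hℓ a ha
  have ht0 : t ≠ 0 := by
    rintro rfl
    exact ht 0 (by rw [norm_zero, zero_pow hℓ0])
  -- all elements with a value divisible by `ℓ` are `ℓ`-th powers
  have hroot : ∀ z w : P.F, ‖w‖ ^ ℓ = ‖z‖ → ∃ f : P.F, f ^ ℓ = z := by
    intro z w hzw
    by_cases hw0 : w = 0
    · refine ⟨0, ?_⟩
      rw [hw0, norm_zero, zero_pow hℓ0] at hzw
      rw [zero_pow hℓ0, norm_eq_zero.1 hzw.symm]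
    have h1 : ‖z / w ^ ℓ‖ = 1 := by
      rw [norm_div, norm_pow, hzw, div_self]
      rw [← hzw]
      exact pow_ne_zero _ (norm_ne_zero_iff.2 hw0)
    obtain ⟨w1, hw1⟩ := hpow _ h1
    have h2 : ‖w1 ^ ℓ‖ = 1 := by
      rw [← h1]
      exact norm_eq_of_sub_lt (by rw [h1]; exact hw1)
    have hw10 : w1 ^ ℓ ≠ 0 := by
      rw [← norm_ne_zero_iff, h2]
      exact one_ne_zero
    obtain ⟨c, hc, -⟩ := root_near_one hℓn (z / w ^ ℓ / w1 ^ ℓ - 1) (by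
      have h3 : z / w ^ ℓ / w1 ^ ℓ - 1 = (z / w ^ ℓ - w1 ^ ℓ) / w1 ^ ℓ := by field_simp
      rw [h3, norm_div, h2, div_one]
      exact hw1)
    refine ⟨c * w1 * w, ?_⟩
    rw [mul_pow, mul_pow, hc]
    field_simp
    ring
  -- elements of given value
  have appr : ∀ f : P.F, f ≠ 0 → ∃ x : P.O, ‖P.res x‖ = ‖f‖ := by
    intro f hf
    obtain ⟨x, hx⟩ := pick P.denseRange (y := f) (Q := fun y => ‖f - y‖ < ‖f‖) (by
      have h1 : Continuous fun y : P.F => ‖f - y‖ := by fun_prop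
      exact h1.continuousAt.eventually_lt continuousAt_const (by simpa using hf))
    exact ⟨x, norm_eq_of_sub_lt hx⟩
  have small : ∀ r : ℝ, 0 < r → ∃ x : P.O, P.res x ≠ 0 ∧ ‖P.res x‖ < r := by
    intro r hr
    obtain ⟨f, hf0, hf⟩ := NormedField.exists_norm_lt P.F hr
    obtain ⟨x, hx⟩ := appr f (norm_pos_iff.1 hf0)
    exact ⟨x, by rw [← norm_pos_iff, hx]; exact hf0, by rw [hx]; exact hf⟩
  have large : ∀ r : ℝ, ∃ x : P.O, r < ‖P.res x‖ := by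
    intro r
    obtain ⟨f, hf⟩ := NormedField.exists_lt_norm P.F (max r 0)
    have hf0 : f ≠ 0 := by
      rintro rfl
      rw [norm_zero] at hf
      exact absurd (le_max_right r 0) (not_le.2 hf)
    obtain ⟨x, hx⟩ := appr f hf0
    exact ⟨x, by rw [hx]; exact (le_max_left _ _).trans_lt hf⟩
  -- scaled neighbourhoods
  have hin : ∀ (c x : P.O), P.res c ≠ 0 → ‖P.res x‖ ≤ ε * ‖P.res c‖ → (c : K)⁻¹ * (x : K) ∈ U := by
    intro c x hc hx
    obtain ⟨c', hcc', hc'⟩ := inv_elt P c hc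
    have h1 := res_mul_eq_one P hcc'
    have h2 : (c : K)⁻¹ * (x : K) = ((c' * x : P.O) : K) := by
      rw [← hc']
      rfl
    rw [h2]
    refine hU1 _ (c' * x).2 ?_
    show ‖P.res (c' * x)‖ ≤ ε
    rw [map_mul, norm_mul]
    calc ‖P.res c'‖ * ‖P.res x‖ ≤ ‖P.res c'‖ * (ε * ‖P.res c‖) :=
          mul_le_mul_of_nonneg_left hx (norm_nonneg _)
      _ = ε * (‖P.res c‖ * ‖P.res c'‖) := by ring
      _ = ε := by rw [h1, mul_one]
  have hout : ∀ (c : P.O) (x : K), P.res c ≠ 0 → (c : K)⁻¹ * x ∈ U →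
      ∃ x' : P.O, (x' : K) = x ∧ ‖P.res x'‖ ≤ ‖P.res c‖ / ε := by
    intro c x hc hx
    obtain ⟨h1, h2⟩ := hU2 _ hx
    have hcK : (c : K) ≠ 0 := by
      intro h0
      apply hc
      have : c = 0 := Subtype.ext h0
      rw [this, map_zero]
    refine ⟨c * ⟨_, h1⟩, ?_, ?_⟩
    · show (c : K) * ((c : K)⁻¹ * x) = x
      rw [mul_inv_cancel_left₀ hcK]
    · rw [map_mul, norm_mul]
      calc ‖P.res c‖ * ‖P.res ⟨_, h1⟩‖ ≤ ‖P.res c‖ * (1 / ε) :=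
            mul_le_mul_of_nonneg_left h2 (norm_nonneg _)
        _ = ‖P.res c‖ / ε := by ring
  -- the constants
  obtain ⟨c1, hc10, hc1⟩ := small (min ε 1) (lt_min hε one_pos)
  have hc1p : 0 < ‖P.res c1‖ := norm_pos_iff.2 hc10
  have hc1ε : ‖P.res c1‖ / ε < 1 := by
    rw [div_lt_one hε]
    exact hc1.trans_le (min_le_left _ _)
  obtain ⟨c0, hc00, hc0⟩ := small (min (ε * ε * ‖P.res c1‖) ε) (lt_min (by positivity) hε)
  have hc0p : 0 < ‖P.res c0‖ := norm_pos_iff.2 hc00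
  obtain ⟨δ, hδ⟩ : ∃ δ, δ = ‖P.res c0‖ / ε := ⟨_, rfl⟩
  have hδ0 : 0 < δ := by rw [hδ]; positivity
  have hδ1 : δ < ε * ‖P.res c1‖ := by
    rw [hδ, div_lt_iff₀ hε]
    calc ‖P.res c0‖ < ε * ε * ‖P.res c1‖ := hc0.trans_le (min_le_left _ _)
      _ = ε * ‖P.res c1‖ * ε := by ring
  have hδ2 : δ < 1 := by
    rw [hδ, div_lt_one hε]
    exact hc0.trans_le (min_le_right _ _)
  obtain ⟨c2, hc2⟩ := large (1 / ε)
  have hc20 : P.res c2 ≠ 0 := by
    rw [← norm_pos_iff]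
    exact (by positivity : (0 : ℝ) < 1 / ε).trans hc2
  have hc2' : 1 ≤ ε * ‖P.res c2‖ := by
    rw [div_lt_iff₀ hε] at hc2
    rw [mul_comm]
    exact hc2.le
  -- the set `TS`
  have hT1 : ∀ z : P.O, δ < ‖P.res z‖ → ((z : K) ∈ TS U ℓ c0 ↔ ∃ w : P.F, ‖w‖ ^ ℓ = ‖P.res z‖) := by
    intro z hz
    constructor
    · rintro ⟨y, hy⟩
      obtain ⟨x', hx', hx'1⟩ := hout c0 _ hc00 hy
      rw [← hδ] at hx'1
      have h1 : y ^ ℓ = ((z - x' : P.O) : K) := by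
        have h2 : ((z - x' : P.O) : K) = (z : K) - (x' : K) := rfl
        rw [h2, hx']
        ring
      have h3 : y ∈ P.O := mem_of_pow P hℓ0 (by rw [h1]; exact (z - x').2)
      refine ⟨P.res ⟨y, h3⟩, ?_⟩
      have h4 : (⟨y, h3⟩ : P.O) ^ ℓ = z - x' := Subtype.ext h1
      rw [← norm_pow, ← map_pow, h4]
      refine norm_eq_of_sub_lt ?_
      rw [map_sub]
      have h5 : P.res z - (P.res z - P.res x') = P.res x' := by ring
      rw [h5]
      exact hx'1.trans_lt hz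
    · rintro ⟨w, hw⟩
      obtain ⟨f, hf⟩ := hroot _ w hw
      obtain ⟨y, hy⟩ := pick P.denseRange (y := f)
        (Q := fun y => ‖P.res z - y ^ ℓ‖ < ε * ‖P.res c0‖) (by
          have h1 : Continuous fun y : P.F => ‖P.res z - y ^ ℓ‖ := by fun_prop
          refine h1.continuousAt.eventually_lt continuousAt_const ?_
          rw [hf, sub_self, norm_zero]
          positivity)
      refine ⟨y, ?_⟩
      have h2 := hin c0 (z - y ^ ℓ) hc00 (by rw [map_sub, map_pow]; exact hy.le)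
      have h3 : ((z - y ^ ℓ : P.O) : K) = (z : K) - (y : K) ^ ℓ := by push_cast; rfl
      rwa [h3] at h2
  -- the set `A1`
  have hA1 : ∀ x : K, x ∈ A1 U ℓ c0 c2 → ∃ x' : P.O, (x' : K) = x ∧ ‖P.res x'‖ < 1 := by
    rintro x ⟨h1, h2, h3⟩
    obtain ⟨x', hx', -⟩ := hout c2 x hc20 h3
    refine ⟨x', hx', ?_⟩
    by_contra hge
    rw [not_lt] at hge
    apply h1
    rw [← hx', hT1 x' (hδ2.trans_le hge)]
    rcases hge.eq_or_lt with h | h
    · exact ⟨1, by rw [norm_one, one_pow, h]⟩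
    · have h4 : ‖P.res (1 + x')‖ = ‖P.res x'‖ := by
        refine norm_eq_of_sub_lt ?_
        rw [map_add, map_one]
        have h5 : P.res x' - (1 + P.res x') = -1 := by ring
        rw [h5, norm_neg, norm_one]
        exact h
      have h5 : (((1 + x' : P.O)) : K) ∈ TS U ℓ c0 := by
        have h6 : (((1 + x' : P.O)) : K) = 1 + x := by
          rw [← hx']
          rfl
        rw [h6]
        exact h2
      rw [hT1 _ (by rw [h4]; exact hδ2.trans_le hge), h4] at h5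
      exact h5
  have hA1' : ∀ x' : P.O, δ < ‖P.res x'‖ → ‖P.res x'‖ < 1 → (∀ w : P.F, ‖w‖ ^ ℓ ≠ ‖P.res x'‖) →
      (x' : K) ∈ A1 U ℓ c0 c2 := by
    intro x' h1 h2 h3
    refine ⟨?_, ?_, ?_⟩
    · rw [hT1 x' h1]
      rintro ⟨w, hw⟩
      exact h3 w hw
    · have h4 : ‖P.res (1 + x')‖ = 1 := by
        rw [map_add, map_one, ← norm_one (α := P.F)]
        refine (norm_eq_of_sub_lt ?_)
        have h5 : (1 : P.F) - (1 + P.res x') = -P.res x' := by ring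
        rw [h5, norm_neg, norm_one]
        exact h2
      have h5 : (((1 + x' : P.O)) : K) = 1 + (x' : K) := rfl
      rw [← h5, hT1 _ (by rw [h4]; exact hδ2), h4]
      exact ⟨1, by rw [norm_one, one_pow]⟩
    · exact hin c2 x' hc20 (h2.le.trans hc2')
  -- the maximal ideal
  refine dfb_of_ideal (M := MI U ℓ c0 c1 c2) (dfK_MI hU ℓ c0 c1 c2 1) fun x => ?_
  rw [val_lt_iff P hO]
  constructor
  · rintro (h | ⟨y, z, rfl, hy, hz⟩ | h)
    · exact hA1 x h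
    · obtain ⟨y', rfl, hy1⟩ := hA1 y hy
      obtain ⟨z', rfl, hz1⟩ := hA1 z hz
      refine ⟨y' * z', rfl, ?_⟩
      rw [map_mul, norm_mul]
      exact mul_lt_one_of_nonneg_of_lt_one_left (norm_nonneg _) hy1 hz1.le
    · obtain ⟨x', hx', h1⟩ := hout c1 x hc10 h
      exact ⟨x', hx', h1.trans_lt hc1ε⟩
  · rintro ⟨x', rfl, hx1⟩
    by_cases h1 : ‖P.res x'‖ ≤ ε * ‖P.res c1‖
    · exact Or.inr (Or.inr (hin c1 x' hc10 h1))
    rw [not_le] at h1
    have hxδ : δ < ‖P.res x'‖ := hδ1.trans h1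
    have hxp : 0 < ‖P.res x'‖ := hδ0.trans hxδ
    by_cases h2 : ∃ w : P.F, ‖w‖ ^ ℓ = ‖P.res x'‖
    · right
      left
      obtain ⟨w, hw⟩ := h2
      obtain ⟨y, hy0, hy1, hy2⟩ := hsm ‖P.res x'‖ ⟨_, rfl⟩ hx1
      obtain ⟨s, hs⟩ := appr (t * y ^ ℓ) (mul_ne_zero ht0 (pow_ne_zero _ hy0))
      rw [norm_mul, norm_pow] at hs
      -- the value of `s` is not divisible by `ℓ`
      have hsn : ∀ b : P.F, ‖b‖ ^ ℓ ≠ ‖P.res s‖ := by
        intro b hb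
        apply ht (b / y)
        rw [norm_div, div_pow, hb, hs]
        have : ‖y‖ ^ ℓ ≠ 0 := pow_ne_zero _ (norm_ne_zero_iff.2 hy0)
        field_simp
      have hs1 : ‖P.res x'‖ < ‖P.res s‖ := by
        refine lt_of_le_of_ne (by rw [hs]; exact hy1) fun h => ?_
        exact hsn w (by rw [hw, h])
      have hs2 : ‖P.res s‖ < 1 := by rw [hs]; exact hy2
      have hsp : 0 < ‖P.res s‖ := hxp.trans hs1
      have hs0 : P.res s ≠ 0 := norm_pos_iff.1 hsp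
      obtain ⟨s', hss', hs'⟩ := inv_elt P s hs0
      have h3 := res_mul_eq_one P hss'
      have hsK : (s : K) ≠ 0 := by
        intro h0
        apply hs0
        have : s = 0 := Subtype.ext h0
        rw [this, map_zero]
      have h4 : ‖P.res (s' * x')‖ = ‖P.res x'‖ / ‖P.res s‖ := by
        rw [map_mul, norm_mul, eq_div_iff hsp.ne']
        calc ‖P.res s'‖ * ‖P.res x'‖ * ‖P.res s‖ = ‖P.res x'‖ * (‖P.res s‖ * ‖P.res s'‖) := by ring
          _ = ‖P.res x'‖ := by rw [h3, mul_one]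
      refine ⟨s, ((s' * x' : P.O) : K), ?_, hA1' s (hxδ.trans hs1) hs2 hsn, hA1' _ ?_ ?_ ?_⟩
      · show (x' : K) = (s : K) * ((s' : K) * (x' : K))
        rw [hs', mul_inv_cancel_left₀ hsK]
      · rw [h4, lt_div_iff₀ hsp]
        calc δ * ‖P.res s‖ ≤ δ * 1 := mul_le_mul_of_nonneg_left hs2.le hδ0.le
          _ < ‖P.res x'‖ := by rw [mul_one]; exact hxδ
      · rw [h4, div_lt_one hsp]
        exact hs1
      · intro b hb
        rw [h4] at hb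
        by_cases hb0 : b = 0
        · rw [hb0, norm_zero, zero_pow hℓ0] at hb
          exact (div_pos hxp hsp).ne hb
        apply hsn (w / b)
        rw [norm_div, div_pow, hw, hb]
        field_simp
    · push Not at h2
      exact Or.inl (hA1' x' hxδ hx1 h2)

end

end Pool.Agent.T9h43.TV
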