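import Pool.Agent.T9h43.TV.Grp2

set_option autoImplicit false

/-! The ring of a place of dimension greater than one is definable, or its value group is
divisible. -/

namespace Pool.Agent.T9h43.TV

open Polynomial Pool.Agent.W882.Nip3 Pool.Agent.N616.NH Pool.Agent.N616.NV Pool.Agent.T9h43.MC

/-- Let `P` be a nonarchimedean place of dimension greater than one of a field which is NIP, `NIP_n`
or NTP2, and `ℓ` a prime number which is not the residue characteristic. If the value group of `P` is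
not divisible by `ℓ`, the valuation ring of `P` is definable. -/
theorem dfb_of_not_divisible (K : Type) [Field K] [FirstOrder.Ring.CompatibleRing K]
    (hK : NIPField K ∨ (∃ n, NIPnField n K) ∨ NTP2Field K) (P : Place K)
    (hult : ∀ a b : P.F, ‖a + b‖ ≤ max ‖a‖ ‖b‖) (D : ℕ) (hD : ¬ DimLeOneUpTo P.F D)
    (O : ValuationSubring K) (hO : IsRingOf P O) {ℓ : ℕ} (hℓ : ℓ.Prime)
    (hℓn : ‖(ℓ : P.F)‖ = 1) (a : P.F) (ha : ∀ b : P.F, ‖b‖ ^ ℓ ≠ ‖a‖) : Dfb O := by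
  obtain ⟨U, ε, hU, hε, hU1, hU2⟩ :=
    (Pool.Agent.Results.MP_3554b5_lc.PlacesOfHigherDimension.result K hK).1 P D hult hD
  by_cases hpow : ∀ u : P.F, ‖u‖ = 1 → ∃ w : P.F, ‖u - w ^ ℓ‖ < 1
  · exact dfb_of_powers P hult U hU ε hε hU1 hU2 hO hℓ.two_le hℓn hpow a ha
  · push Not at hpow
    obtain ⟨u, hu, hw⟩ := hpow
    obtain ⟨t, ht⟩ := nt1_of P hult hO hℓ a ha (res_ext P hult hO hℓ hℓn u hu fun w =>
      not_lt.2 (hw w))
    exact (Pool.Agent.Results.MP_3554b5_lc.NonTameDefinable.result K hK).2.1 ℓ O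
      (Or.inl ⟨ℓ, le_rfl, t, ht⟩)

theorem divisible_of_primes {F : Type} [NontriviallyNormedField F]
    (h : ∀ ℓ : ℕ, ℓ.Prime → ∀ a : F, ∃ b : F, ‖b‖ ^ ℓ = ‖a‖) (m : ℕ) (hm : m ≠ 0) :
    ∀ a : F, ∃ b : F, ‖b‖ ^ m = ‖a‖ := by
  induction m using induction_on_primes with
  | zero => exact absurd rfl hm
  | one => exact fun a => ⟨a, pow_one _⟩
  | prime_mul p k hp ih =>
    intro a
    have hk : k ≠ 0 := by
      rintro rfl
      exact hm (mul_zero p)
    obtain ⟨b, hb⟩ := h p hp a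
    obtain ⟨c, hc⟩ := ih hk b
    exact ⟨c, by rw [mul_comm, pow_mul, hc, hb]⟩

/-- The ring of a nonarchimedean place of dimension greater than one of a NIP field is definable, or
the value group is divisible. -/
theorem dfb_or_divisible (K : Type) [Field K] [FirstOrder.Ring.CompatibleRing K]
    (hK : NIPField K ∨ ∃ n, NIPnField n K) (P : Place K)
    (hult : ∀ a b : P.F, ‖a + b‖ ≤ max ‖a‖ ‖b‖) (D : ℕ) (hD : ¬ DimLeOneUpTo P.F D)
    (O : ValuationSubring K) (hO : IsRingOf P O) :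
    Dfb O ∨ ∀ m : ℕ, m ≠ 0 → ∀ a : P.F, ∃ b : P.F, ‖b‖ ^ m = ‖a‖ := by
  have hul : IsUltrametricDist P.F :=
    IsUltrametricDist.isUltrametricDist_of_forall_norm_add_le_max_norm hult
  obtain ⟨n, hn⟩ : ∃ n, NIPnField n K := by
    rcases hK with h | h
    · exact ⟨1, nip_one h⟩
    · exact h
  have hK' : NIPField K ∨ (∃ n, NIPnField n K) ∨ NTP2Field K := Or.inr (Or.inl ⟨n, hn⟩)
  by_contra hcon
  push Not at hcon
  obtain ⟨hdf, m, hm, a0, ha0⟩ := hcon
  obtain ⟨ℓ, hℓ, a, ha⟩ : ∃ ℓ : ℕ, ℓ.Prime ∧ ∃ a : P.F, ∀ b : P.F, ‖b‖ ^ ℓ ≠ ‖a‖ := by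
    by_contra hc
    push Not at hc
    obtain ⟨b, hb⟩ := divisible_of_primes hc m hm a0
    exact ha0 b hb
  by_cases hℓn : ‖(ℓ : P.F)‖ = 1
  · exact hdf (dfb_of_not_divisible K hK' P hult D hD O hO hℓ hℓn a ha)
  have hℓ1 : ‖(ℓ : P.F)‖ < 1 := lt_of_le_of_ne (norm_nat_le ℓ) hℓn
  obtain ⟨U, ε, hU, hε, hU1, hU2⟩ :=
    (Pool.Agent.Results.MP_3554b5_lc.PlacesOfHigherDimension.result K hK').1 P D hult hD
  have hmain := Pool.Agent.T9h43.MC.main P.F hℓ hℓ1 fun E _ _ _ _ _ =>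
    Pool.Agent.T9h43.MC.no_pat n hn P hult U hU ε hε hU1 hU2 hℓ E
  rcases hmain with h1 | ⟨h0, ⟨π, hπ0, hπ1, hπ⟩, -⟩
  · -- all elements are `ℓ`-th powers
    have hroot : ∃ b : P.F, b ^ ℓ = a := by
      by_contra hb
      push Not at hb
      have hirr := X_pow_sub_C_irreducible_of_prime hℓ hb
      have : Fact (Irreducible (X ^ ℓ - C a : P.F[X])) := ⟨hirr⟩
      have hmon : (X ^ ℓ - C a : P.F[X]).Monic := monic_X_pow_sub_C a hℓ.ne_zero
      have hfin : FiniteDimensional P.F (AdjoinRoot (X ^ ℓ - C a : P.F[X])) :=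
        Module.Finite.of_basis (AdjoinRoot.powerBasisAux' hmon)
      refine h1 (AdjoinRoot (X ^ ℓ - C a : P.F[X])) ?_
      rw [Module.finrank_eq_card_basis (AdjoinRoot.powerBasisAux' hmon), Fintype.card_fin,
        natDegree_X_pow_sub_C]
    obtain ⟨b, hb⟩ := hroot
    exact ha b (by rw [← norm_pow, hb])
  · obtain ⟨q, hq, hqr⟩ : ∃ q : ℕ, q.Prime ∧ q ≠ ℓ := by
      by_cases h : ℓ = 2
      · exact ⟨3, Nat.prime_three, by omega⟩
      · exact ⟨2, Nat.prime_two, fun h' => h h'.symm⟩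
    exact hdf (dfb_of_not_divisible K hK' P hult D hD O hO hq (norm_prime hq hℓ hqr hℓ1) π
      fun b => not_pow_unif hq.two_le hπ0 hπ1 hπ b)

end Pool.Agent.T9h43.TV
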